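import Mathlib

/-!
# A lower bound for the Mahler measure in terms of the number of monomials

THEOREM.  If `f` is an integer polynomial with `k` nonzero coefficients and `M(f) > 1`, then
`M(f) ≥ 1 + (500 k) ^ (-3 k)`.

Paper proof (helper61).  Let `k = t + 1`.

Put `m(s) = mm f s = log M(f(e^(-s) X))`.  If `|f(0)| = 1` then
`m(s) = ∑ max 0 (l_z - s)` over the roots `z` of `f`, where `l_z = - log |z|` (file Roots).

(1) Sublevel estimate (Lawton), file Sublevel.  If `p` has at most `t + 1` nonzero coefficients
(`t ≥ 1`) and `c_j` is one of them, then `|{θ ∈ [0, 2π] : |p(e^(iθ))| < x |c_j|}| ≤ 160 t x^(1/t)`.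
Proof by induction on `t`: dividing by a power of `X` and, if necessary, replacing `p` by
its conjugate reciprocal polynomial (same absolute values on the circle) we may assume that
`p(0) ≠ 0` and `2 j ≥ n = deg p`.  Then `Q = X p' / n` has one coefficient less and its `j`-th
coefficient has absolute value at least `|c_j| / 2`.  Where `|Q| ≥ y` we have `|d/dθ p(e^(iθ))| ≥ n y`
and the set where moreover `|p| < x` has measure at most `80 x / y` (file TrigStep: real and
imaginary part are trigonometric polynomials of degree `≤ n`, cut the circle at the at most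
`4 n` zeros of `u'^2 - c^2`).

(2) File LogInt: the mean of `log (1 + R / |p|)` over the circle is at most
`GG t R = 2 t (1 + 26 t) R^(1/(2t))` if some coefficient has absolute value `≥ 1`.

(3) File Cut: hence, if `p`, `q` agree in degrees `< a`, `|p(0)| = |q(0)| = 1` and the
coefficients of `q - p` have absolute sum `≤ L`, then `mm q s ≤ mm p s + GG t (L e^(-a s))`.
Also `log |c_j| ≤ log M(p) + GG t 1`.  So if `M(f) ≤ e` all errors are
`≤ exp (35 t) * exp (- a s / (2 t))`.

(4) The theorem LogSquareSum (helper25, landed): `∑ (max 0 l_z)^2 > 1 / (1600 n)` if `M(f) > 1`,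
`|f(0)| = 1`, `n = deg f`.  File Inner.  Consequence: with `σ = 1 / (160 n)`,
`∑ (max 0 (l_z - σ))^2 ≥ 3 / (25600 n)`, and the left side is at most
`2 h ∑_{i < N} mm f (σ + i h)` for every `h > 0` and all large `N`.

(5) Induction on `t`: claim `mm f (1 / (160 n)) ≥ ρ_t = (500 t) ^ (-3 t)` whenever `f` has at most
`t + 1` nonzero coefficients, `|f(0)| = 1`, `M(f) > 1`, `n = deg f`.
If `M(f) > e` this is clear, as `mm f s ≥ log M(f) - n s`.
Let `K = (500 t)^3`.  There is an exponent `a > 0` of `f` with
`a ≥ K b` for every smaller exponent `b` and `n ≤ K^(t-1) a` (file Split).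
Let `g` be the part of `f` of degree `< a`.
If `M(g) = 1` then `mm g s = 0`, so `mm f s ≤ exp (35 t) exp (- a s / (2 t))`; take
`h = T / a`, `T = (500 t)^3 / 25600` in (4).
If `M(g) > 1` use the induction hypothesis for `g` and (3) at `s = 1 / (160 deg g)`.
-/

set_option autoImplicit false

namespace Pool.Agent.H61.Sparse

open Polynomial

/-- `m(s) = log M(f(e^(-s) X))` -/
noncomputable def mm (f : ℂ[X]) (s : ℝ) : ℝ :=
  (f.comp (C ((Real.exp (-s) : ℝ) : ℂ) * X)).logMahlerMeasure

/-- the error function -/
noncomputable def GG (t : ℕ) (R : ℝ) : ℝ :=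
  2 * t * (1 + 26 * t) * R ^ (1 / (2 * (t : ℝ)))

end Pool.Agent.H61.Sparse
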