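import Pool.Agent.H61.Sparse.LogInt

/-!
JOB.  `compare` and `log_coeff_le` from `log_int`.

`compare`: on the unit circle, outside the zeros of `P`,
`log |P + h| ≤ log (|P| + R) = log |P| + log (1 + R / |P|)` (if `P + h = 0` at the point then the
left side is `log 0 = 0` in Lean: use that `P + h` has finitely many zeros, so the inequality
holds almost everywhere; or treat `max`).  Integrate (`circleAverage`, monotone a.e.).
`log_coeff_le`: let `P₁ = C (c_j)⁻¹ * P`; then `log M(P) = log |c_j| + log M(P₁)` and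
`0 ≤ log (|P₁| + 1) = log |P₁| + log (1 + 1/|P₁|)` a.e., so `0 ≤ log M(P₁) + GG t 1`.
-/

set_option autoImplicit false

namespace Pool.Agent.H61.Sparse

open Polynomial MeasureTheory

/-- The zeros of a nonzero polynomial on the circle form a finite set of angles. -/
theorem finite_circle_zeros (Q : ℂ[X]) (hQ : Q ≠ 0) :
    {θ : ℝ | θ ∈ Set.Icc 0 (2 * Real.pi) ∧ Q.eval (circleMap 0 1 θ) = 0}.Finite := by
  have h1 : {θ : ℝ | θ ∈ Set.uIoc 0 (2 * Real.pi) ∧ Q.eval (circleMap 0 1 θ) = 0}.Finite := by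
    apply Set.Finite.of_finite_image (f := circleMap 0 1) _ <|
      (injOn_circleMap_of_abs_sub_le one_ne_zero
        (by simp [le_of_eq, Real.pi_nonneg])).mono (fun _ h ↦ h.1)
    apply Q.roots.finite_toSet.subset
    rintro _ ⟨θ, ⟨_, h⟩, rfl⟩
    simpa [hQ] using h
  apply (h1.union (Set.finite_singleton (0 : ℝ))).subset
  rintro θ ⟨⟨h0, h2⟩, h3⟩
  rcases h0.eq_or_lt with h | h
  · right
    simp [← h]
  · left
    refine ⟨?_, h3⟩
    rw [Set.uIoc_of_le Real.two_pi_pos.le]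
    exact ⟨h, h2⟩

/-- Monotonicity of the circle average, outside the zeros of a polynomial. -/
theorem avg_mono_off (Q : ℂ[X]) (hQ : Q ≠ 0) {f g : ℂ → ℝ} (hf : CircleIntegrable f 0 1)
    (hg : CircleIntegrable g 0 1) (h : ∀ z : ℂ, ‖z‖ = 1 → Q.eval z ≠ 0 → f z ≤ g z) :
    Real.circleAverage f 0 1 ≤ Real.circleAverage g 0 1 := by
  rw [Real.circleAverage_def, Real.circleAverage_def, smul_eq_mul, smul_eq_mul]
  apply mul_le_mul_of_nonneg_left _ (by positivity)
  apply intervalIntegral.integral_mono_ae_restrict Real.two_pi_pos.le hf hg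
  rw [Filter.EventuallyLE, ae_restrict_iff' measurableSet_Icc, ae_iff]
  apply ((finite_circle_zeros Q hQ).subset _).measure_zero
  intro θ hθ
  simp only [Set.mem_ofPred_eq, Classical.not_imp] at hθ ⊢
  refine ⟨hθ.1, ?_⟩
  by_contra hne
  exact hθ.2 (h _ (by simp) hne)

theorem circleIntegrable_log_eval (P : ℂ[X]) :
    CircleIntegrable (fun z => Real.log ‖P.eval z‖) 0 1 :=
  P.intervalIntegrable_mahlerMeasure

theorem compare (t : ℕ) (ht : 0 < t) (P h : ℂ[X]) (hP : P.support.card ≤ t + 1) (j : ℕ)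
    (hj : 1 ≤ ‖P.coeff j‖) (hPh : P + h ≠ 0) {R : ℝ} (hR : 0 ≤ R)
    (hh : ∀ z : ℂ, ‖z‖ = 1 → ‖h.eval z‖ ≤ R) :
    (P + h).logMahlerMeasure ≤ P.logMahlerMeasure + GG t R := by
  have hP0 : P ≠ 0 := by
    rintro rfl
    simp at hj
    linarith
  obtain ⟨hi, hle⟩ := log_int t ht P hP j hj hR
  have h1 : (P + h).logMahlerMeasure ≤
      Real.circleAverage (fun z => Real.log ‖P.eval z‖ + Real.log (1 + R / ‖P.eval z‖)) 0 1 := by
    rw [logMahlerMeasure_def]
    apply avg_mono_off (P * (P + h)) (mul_ne_zero hP0 hPh) (circleIntegrable_log_eval (P + h))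
      ((circleIntegrable_log_eval P).add hi)
    intro z hz hne
    rw [eval_mul, mul_ne_zero_iff] at hne
    have hp : 0 < ‖P.eval z‖ := norm_pos_iff.2 hne.1
    rw [Pi.add_apply, ← Real.log_mul hp.ne' (by positivity)]
    apply Real.log_le_log (norm_pos_iff.2 hne.2)
    rw [eval_add, mul_add, mul_one, mul_div_cancel₀ _ hp.ne']
    exact (norm_add_le _ _).trans (add_le_add le_rfl (hh z hz))
  rw [Real.circleAverage_fun_add (circleIntegrable_log_eval P) hi] at h1
  rw [logMahlerMeasure_def P]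
  linarith

theorem log_coeff_le (t : ℕ) (ht : 0 < t) (P : ℂ[X]) (hP : P.support.card ≤ t + 1) (j : ℕ)
    (hj : P.coeff j ≠ 0) :
    Real.log ‖P.coeff j‖ ≤ P.logMahlerMeasure + GG t 1 := by
  have hP0 : P ≠ 0 := by
    rintro rfl
    simp at hj
  have hc : (P.coeff j)⁻¹ ≠ 0 := inv_ne_zero hj
  set P₁ : ℂ[X] := C (P.coeff j)⁻¹ * P with hP₁
  have hP₁0 : P₁ ≠ 0 := mul_ne_zero (by simpa using hj) hP0
  have hcard : P₁.support.card ≤ t + 1 := by
    apply le_trans (Finset.card_le_card _) hP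
    intro i hi
    rw [mem_support_iff] at hi ⊢
    rw [hP₁, coeff_C_mul] at hi
    exact right_ne_zero_of_mul hi
  have hj1 : 1 ≤ ‖P₁.coeff j‖ := by
    rw [hP₁, coeff_C_mul, inv_mul_cancel₀ hj, norm_one]
  obtain ⟨hi, hle⟩ := log_int t ht P₁ hcard j hj1 zero_le_one
  have h1 : (0 : ℝ) ≤
      Real.circleAverage (fun z => Real.log ‖P₁.eval z‖ + Real.log (1 + 1 / ‖P₁.eval z‖)) 0 1 := by
    have h0 : Real.circleAverage (fun _ : ℂ => (0 : ℝ)) 0 1 = 0 := Real.circleAverage_const 0 0 1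
    rw [← h0]
    apply avg_mono_off P₁ hP₁0 (circleIntegrable_const 0 0 1)
      ((circleIntegrable_log_eval P₁).add hi)
    intro z hz hne
    have hp : 0 < ‖P₁.eval z‖ := norm_pos_iff.2 hne
    rw [Pi.add_apply, ← Real.log_mul hp.ne' (by positivity)]
    apply Real.log_nonneg
    rw [mul_add, mul_one, mul_div_cancel₀ _ hp.ne']
    linarith
  rw [Real.circleAverage_fun_add (circleIntegrable_log_eval P₁) hi] at h1
  have h2 : P₁.logMahlerMeasure = Real.log ‖(P.coeff j)⁻¹‖ + P.logMahlerMeasure :=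
    logMahlerMeasure_C_mul hc hP0
  rw [logMahlerMeasure_def P₁] at h2
  rw [norm_inv, Real.log_inv] at h2
  linarith

end Pool.Agent.H61.Sparse
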