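import Pool.Agent.H61.Sparse.Sublevel

/-!
JOB.  `log_int`: the mean over the circle of `log (1 + R / |P|)`.

Proof.  Put `δ = 1/(2t)` and `g = |P|^(-δ)` on `[0, 2π]`.  By the layer cake formula
(`MeasureTheory.lintegral_eq_lintegral_meas_lt`) `∫⁻ g = ∫⁻ y in (0, ∞), vol {g > y}`
`≤ 2π + ∫⁻ y in (1, ∞), vol {|P| < y^(-2t)}`, and `vol {|P| < y^(-2t)} ≤ 160 t y^(-2)` by
`sublevel` (with `|c_j| ≥ 1`).  So `∫⁻ g ≤ 2π + 160 t`, and `(2π + 160 t)/(2π) ≤ 1 + 26 t`.
Finally `log (1 + x) ≤ (1/δ) x^δ` for `x ≥ 0` (as `(1+x)^δ ≤ 1 + x^δ`, `0 < δ ≤ 1`, and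
`log z ≤ z - 1`), so `log (1 + R/|P|) ≤ 2 t R^δ g`.
(At the finitely many zeros of `P` the integrand is `log (1 + 0) = 0` in Lean.)
Integrability follows from the same bound (the integrand is measurable, nonnegative).
-/

set_option autoImplicit false

namespace Pool.Agent.H61.Sparse

open Polynomial MeasureTheory

lemma log_one_add_le {δ x : ℝ} (hδ : 0 < δ) (hδ1 : δ ≤ 1) (hx : 0 ≤ x) :
    Real.log (1 + x) ≤ δ⁻¹ * x ^ δ := by
  have h1 : (1 + x) ^ δ ≤ 1 + x ^ δ := by
    obtain ⟨z, rfl⟩ : ∃ z : NNReal, (z : ℝ) = x := ⟨⟨x, hx⟩, rfl⟩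
    have h := NNReal.rpow_add_le_add_rpow (1 : NNReal) z hδ.le hδ1
    have h2 := NNReal.coe_le_coe.2 h
    push_cast at h2
    simpa using h2
  have h3 : Real.log ((1 + x) ^ δ) ≤ (1 + x) ^ δ - 1 :=
    Real.log_le_sub_one_of_pos (Real.rpow_pos_of_pos (by linarith) _)
  rw [Real.log_rpow (by linarith)] at h3
  rw [← div_eq_inv_mul, le_div_iff₀ hδ]
  linarith

theorem log_int (t : ℕ) (ht : 0 < t) (P : ℂ[X]) (hP : P.support.card ≤ t + 1) (j : ℕ)
    (hj : 1 ≤ ‖P.coeff j‖) {R : ℝ} (hR : 0 ≤ R) :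
    CircleIntegrable (fun z => Real.log (1 + R / ‖P.eval z‖)) 0 1 ∧
    Real.circleAverage (fun z => Real.log (1 + R / ‖P.eval z‖)) 0 1 ≤ GG t R := by
  have hpi := Real.pi_pos
  have htR : (0 : ℝ) < t := by exact_mod_cast ht
  have ht1 : (1 : ℝ) ≤ t := by exact_mod_cast ht
  set δ : ℝ := 1 / (2 * (t : ℝ)) with hδdef
  have hδ : 0 < δ := by positivity
  have hδ1 : δ ≤ 1 := by
    rw [hδdef, div_le_one (by positivity)]
    linarith
  have hδinv : δ⁻¹ = 2 * t := by rw [hδdef, one_div, inv_inv]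
  set p : ℝ → ℝ := fun θ => ‖P.eval (circleMap 0 1 θ)‖ with hp
  have hpc : Continuous p := by
    have h1 : Continuous fun θ : ℝ => circleMap 0 1 θ := continuous_circleMap 0 1
    exact (P.continuous.comp h1).norm
  have hp0 : ∀ θ, 0 ≤ p θ := fun θ => norm_nonneg _
  set g : ℝ → ℝ := fun θ => (p θ) ^ (-δ) with hg
  have hgm : Measurable g := hpc.measurable.pow_const _
  have hg0 : ∀ θ, 0 ≤ g θ := fun θ => Real.rpow_nonneg (hp0 θ) _
  set S : Set ℝ := Set.Ioc 0 (2 * Real.pi) with hS
  -- pointwise bound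
  have hpt : ∀ θ, Real.log (1 + R / p θ) ≤ 2 * t * R ^ δ * g θ := by
    intro θ
    rcases (hp0 θ).eq_or_lt with h0 | h0
    · rw [← h0, div_zero, add_zero, Real.log_one]
      have := hg0 θ
      positivity
    · refine (log_one_add_le hδ hδ1 (div_nonneg hR h0.le)).trans (le_of_eq ?_)
      rw [hδinv, Real.div_rpow hR h0.le, hg]
      simp only
      rw [Real.rpow_neg h0.le]
      ring
  have hnn : ∀ θ, 0 ≤ Real.log (1 + R / p θ) := fun θ =>
    Real.log_nonneg (by have := div_nonneg hR (hp0 θ); linarith)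
  -- the measure of superlevel sets
  have hlev : ∀ y : ℝ, 1 < y → (volume.restrict S) {θ | y < g θ} ≤
      ENNReal.ofReal (160 * t * y ^ (-2 : ℝ)) := by
    intro y hy
    have hy0 : 0 < y := by linarith
    rw [Measure.restrict_apply (measurableSet_lt measurable_const hgm)]
    have h1 := sublevel t ht P hP j (η := y ^ (-(2 * (t : ℝ)))) (Real.rpow_nonneg hy0.le _)
    have h2 : (y ^ (-(2 * (t : ℝ)))) ^ (1 / (t : ℝ)) = y ^ (-2 : ℝ) := by
      rw [← Real.rpow_mul hy0.le]
      congr 1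
      field_simp
    rw [h2] at h1
    refine (measure_mono ?_).trans h1
    rintro θ ⟨hθ, hθS⟩
    refine ⟨⟨hθS.1.le, hθS.2⟩, ?_⟩
    have hθ' : y < (p θ) ^ (-δ) := hθ
    have hpos : 0 < p θ := by
      rcases (hp0 θ).eq_or_lt with h0 | h0
      · rw [← h0, Real.zero_rpow (neg_ne_zero.2 hδ.ne')] at hθ'
        linarith
      · exact h0
    have h3 : p θ < y ^ (-(2 * (t : ℝ))) := by
      have h4 : p θ = ((p θ) ^ (-δ)) ^ (-(2 * (t : ℝ))) := by
        rw [← Real.rpow_mul hpos.le]
        have : -δ * -(2 * (t : ℝ)) = 1 := by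
          rw [hδdef]
          field_simp
        rw [this, Real.rpow_one]
      rw [h4]
      exact Real.rpow_lt_rpow_of_neg hy0 hθ' (by linarith)
    have h5 : (0 : ℝ) ≤ y ^ (-(2 * (t : ℝ))) := Real.rpow_nonneg hy0.le _
    exact lt_of_lt_of_le h3 (le_mul_of_one_le_right h5 hj)
  -- the integral of `g`
  have hvolS : volume S = ENNReal.ofReal (2 * Real.pi) := by
    rw [hS, Real.volume_Ioc, sub_zero]
  have hlint : ∫⁻ θ in S, ENNReal.ofReal (g θ) ≤ ENNReal.ofReal (2 * Real.pi + 160 * t) := by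
    rw [lintegral_eq_lintegral_meas_lt (volume.restrict S) (Filter.Eventually.of_forall hg0)
      hgm.aemeasurable]
    have hsplit : Set.Ioi (0 : ℝ) = Set.Ioc 0 1 ∪ Set.Ioi 1 :=
      (Set.Ioc_union_Ioi_eq_Ioi zero_le_one).symm
    rw [hsplit]
    refine (lintegral_union_le _ _ _).trans ?_
    have h1 : ∫⁻ y in Set.Ioc (0 : ℝ) 1, (volume.restrict S) {θ | y < g θ} ≤
        ENNReal.ofReal (2 * Real.pi) := by
      calc ∫⁻ y in Set.Ioc (0 : ℝ) 1, (volume.restrict S) {θ | y < g θ}
          ≤ ∫⁻ _ in Set.Ioc (0 : ℝ) 1, ENNReal.ofReal (2 * Real.pi) := by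
            refine lintegral_mono fun y => ?_
            refine (measure_mono (Set.subset_univ _)).trans (le_of_eq ?_)
            rw [Measure.restrict_apply_univ, hvolS]
        _ = ENNReal.ofReal (2 * Real.pi) := by
            rw [setLIntegral_const, Real.volume_Ioc, sub_zero, ENNReal.ofReal_one, mul_one]
    have h2 : ∫⁻ y in Set.Ioi (1 : ℝ), (volume.restrict S) {θ | y < g θ} ≤
        ENNReal.ofReal (160 * t) := by
      calc ∫⁻ y in Set.Ioi (1 : ℝ), (volume.restrict S) {θ | y < g θ}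
          ≤ ∫⁻ y in Set.Ioi (1 : ℝ), ENNReal.ofReal (160 * t * y ^ (-2 : ℝ)) :=
            setLIntegral_mono' measurableSet_Ioi fun y hy => hlev y hy
        _ = ENNReal.ofReal (∫ y in Set.Ioi (1 : ℝ), 160 * t * y ^ (-2 : ℝ)) := by
            rw [ofReal_integral_eq_lintegral_ofReal]
            · exact (integrableOn_Ioi_rpow_of_lt (by norm_num) one_pos).const_mul _
            · filter_upwards [ae_restrict_mem measurableSet_Ioi] with y hy
              have : (0 : ℝ) < y := lt_trans one_pos hy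
              positivity
        _ = ENNReal.ofReal (160 * t) := by
            rw [integral_const_mul, integral_Ioi_rpow_of_lt (by norm_num) one_pos]
            norm_num
    rw [ENNReal.ofReal_add (by positivity) (by positivity)]
    exact add_le_add h1 h2
  have hgint : IntegrableOn g S := by
    refine ⟨hgm.aestronglyMeasurable, ?_⟩
    rw [hasFiniteIntegral_iff_ofReal (Filter.Eventually.of_forall hg0)]
    exact lt_of_le_of_lt hlint ENNReal.ofReal_lt_top
  have hgval : ∫ θ in S, g θ ≤ 2 * Real.pi + 160 * t := by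
    rw [integral_eq_lintegral_of_nonneg_ae (Filter.Eventually.of_forall hg0)
      hgm.aestronglyMeasurable]
    exact ENNReal.toReal_le_of_le_ofReal (by positivity) hlint
  have hmeas : Measurable fun θ => Real.log (1 + R / p θ) :=
    Real.measurable_log.comp (measurable_const.add (measurable_const.div hpc.measurable))
  have hint : IntegrableOn (fun θ => Real.log (1 + R / p θ)) S := by
    refine Integrable.mono' (hgint.const_mul (2 * t * R ^ δ)) hmeas.aestronglyMeasurable ?_
    refine Filter.Eventually.of_forall fun θ => ?_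
    rw [Real.norm_of_nonneg (hnn θ)]
    exact hpt θ
  refine ⟨?_, ?_⟩
  · rw [CircleIntegrable, intervalIntegrable_iff_integrableOn_Ioc_of_le (by positivity)]
    exact hint
  · rw [Real.circleAverage_def, intervalIntegral.integral_of_le (by positivity), smul_eq_mul]
    have h1 : ∫ θ in S, Real.log (1 + R / p θ) ≤ 2 * t * R ^ δ * (2 * Real.pi + 160 * t) := by
      calc ∫ θ in S, Real.log (1 + R / p θ) ≤ ∫ θ in S, 2 * t * R ^ δ * g θ :=
            setIntegral_mono hint (hgint.const_mul _) hpt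
        _ = 2 * t * R ^ δ * ∫ θ in S, g θ := integral_const_mul _ _
        _ ≤ _ := by
            refine mul_le_mul_of_nonneg_left hgval ?_
            positivity
    calc (2 * Real.pi)⁻¹ * ∫ θ in S, Real.log (1 + R / p θ)
        ≤ (2 * Real.pi)⁻¹ * (2 * t * R ^ δ * (2 * Real.pi + 160 * t)) :=
          mul_le_mul_of_nonneg_left h1 (by positivity)
      _ = (2 * t * R ^ δ) * (1 + (160 / (2 * Real.pi)) * t) := by
          field_simp
      _ ≤ (2 * t * R ^ δ) * (1 + 26 * t) := by
          refine mul_le_mul_of_nonneg_left ?_ (by positivity)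
          have h2 : 160 / (2 * Real.pi) ≤ 26 := by
            rw [div_le_iff₀ (by positivity)]
            nlinarith [Real.pi_gt_d2]
          nlinarith
      _ = GG t R := by
          rw [GG, ← hδdef]
          ring

end Pool.Agent.H61.Sparse
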