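import Pool.Agent.H61.Sparse.Roots
import Pool.Agent.H25.L2.Irr

/-!
JOB.  The theorem LogSquareSum of helper25 for the roots inside the unit disc.

`inner_sq`: let `g = f.reverse`, leading coefficient `f(0) = ± 1`, `M(g) = M(f) > 1`, the
roots of `g` are the inverses of the roots of `f` (`f(0) ≠ 0`), `deg g = deg f`.
The theorem `main_one` of Pool/Agent/Results/MP_dc0c68_nt/LogSquareSum.lean (copy its short proof from
`Pool.Agent.H25.L2.irr`; do NOT import the file from Results) gives
`1/(1600 n) < (log |lead|)^2 + ∑ (log⁺ |α|)^2` over the roots `α` of `g`; `log⁺ |1/z| = max 0 (- log |z|)`.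
The copied file proves first the monic case; here the leading coefficient of `g` is `±1`.
`sq_lower`: for every real `l` and `σ ≥ 0`, `(max 0 (l - σ))^2 ≥ ((max 0 l)^2 - 4 σ^2)/4`; sum over the at
most `n` roots with `σ = 1/(160 n)`: `(1/(1600 n) - 4 n σ^2)/4 = 3/(25600 n)`.
-/

set_option autoImplicit false

namespace Pool.Agent.H61.Sparse

open Polynomial

/-! ### copied from the hand-in LogSquareSum of helper25 -/

theorem roots_eq (f : ℤ[X]) :
    (f.map (algebraMap ℤ ℂ)).roots = (f.map (Int.castRingHom ℂ)).roots := by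
  rw [algebraMap_int_eq]

theorem measure_eq (f : ℤ[X]) :
    (f.map (algebraMap ℤ ℂ)).mahlerMeasure = |(f.leadingCoeff : ℝ)|
      * ((f.map (algebraMap ℤ ℂ)).roots.map fun α => max 1 ‖α‖).prod := by
  rw [mahlerMeasure_eq_leadingCoeff_mul_prod_roots,
    leadingCoeff_map_of_injective (algebraMap_int_eq ℂ ▸ RingHom.injective_int _)]
  congr 1
  rw [algebraMap_int_eq, eq_intCast, Complex.norm_intCast]

theorem sum_sq_nonneg (s : Multiset ℂ) : 0 ≤ (s.map fun α => (Real.posLog ‖α‖) ^ 2).sum := by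
  apply Multiset.sum_nonneg
  intro x hx
  obtain ⟨a, _, rfl⟩ := Multiset.mem_map.mp hx
  positivity

/-- monic case -/
theorem monic_case {f : ℤ[X]} (hf : f.Monic)
    (hM : 1 < (f.map (algebraMap ℤ ℂ)).mahlerMeasure) :
    1 / (1600 * (f.natDegree : ℝ))
      < ((f.map (algebraMap ℤ ℂ)).roots.map fun α => (Real.posLog ‖α‖) ^ 2).sum := by
  -- a root outside the closed unit disc
  have h1 : ∃ α ∈ (f.map (algebraMap ℤ ℂ)).roots, 1 < ‖α‖ := by
    by_contra hcon
    push Not at hcon
    rw [measure_eq, hf.leadingCoeff] at hM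
    have h2 : ((f.map (algebraMap ℤ ℂ)).roots.map fun α => max 1 ‖α‖).prod = 1 := by
      apply Multiset.prod_eq_one
      intro x hx
      obtain ⟨a, ha, rfl⟩ := Multiset.mem_map.mp hx
      exact max_eq_left (hcon a ha)
    rw [h2] at hM
    simp at hM
  obtain ⟨α, hα, hα1⟩ := h1
  rw [roots_eq, Pool.Agent.H25.L2.mem_roots_iff hf.ne_zero] at hα
  have hint : IsIntegral ℤ α := ⟨f, hf, by rwa [aeval_def] at hα⟩
  set g := minpoly ℤ α with hg
  have hgm : g.Monic := minpoly.monic hint
  have hgi : Irreducible g := (minpoly.prime_of_isIntegrallyClosed hint).irreducible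
  have hgα : aeval α g = 0 := minpoly.aeval ℤ α
  have hSg := Pool.Agent.H25.L2.irr g.natDegree g rfl hgm hgi ⟨α, hgα, by
    intro h0; rw [h0, norm_zero] at hα1; linarith, by
    intro k hk h0
    have h2 := congrArg norm h0
    rw [norm_pow, norm_one] at h2
    exact absurd h2 (one_lt_pow₀ hα1 hk.ne').ne'⟩
  obtain ⟨q, hq⟩ : g ∣ f := minpoly.isIntegrallyClosed_dvd hint hα
  have hdeg : g.natDegree ≤ f.natDegree := natDegree_le_of_dvd ⟨q, hq⟩ hf.ne_zero
  have hgpos : 0 < g.natDegree := minpoly.natDegree_pos hint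
  have hS : Pool.Agent.H25.L2.Sl g ≤
      ((f.map (algebraMap ℤ ℂ)).roots.map fun α => (Real.posLog ‖α‖) ^ 2).sum := by
    have hne : (f.map (Int.castRingHom ℂ)) ≠ 0 := (hf.map _).ne_zero
    rw [roots_eq]
    have hr : (f.map (Int.castRingHom ℂ)).roots
        = (g.map (Int.castRingHom ℂ)).roots + (q.map (Int.castRingHom ℂ)).roots := by
      have h3 : f.map (Int.castRingHom ℂ)
          = g.map (Int.castRingHom ℂ) * q.map (Int.castRingHom ℂ) := by
        rw [hq, Polynomial.map_mul]
      rw [h3] at hne ⊢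
      exact roots_mul hne
    rw [hr, Multiset.map_add, Multiset.sum_add]
    unfold Pool.Agent.H25.L2.Sl
    linarith [sum_sq_nonneg (q.map (Int.castRingHom ℂ)).roots]
  have hgp : (0 : ℝ) < g.natDegree := by exact_mod_cast hgpos
  have hle : (g.natDegree : ℝ) ≤ f.natDegree := by exact_mod_cast hdeg
  calc 1 / (1600 * (f.natDegree : ℝ)) ≤ 1 / (1600 * (g.natDegree : ℝ)) := by
        apply one_div_le_one_div_of_le (by positivity)
        linarith
    _ < Pool.Agent.H25.L2.Sl g := hSg
    _ ≤ _ := hS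

theorem measure_neg (f : ℤ[X]) :
    ((-f).map (algebraMap ℤ ℂ)).mahlerMeasure = (f.map (algebraMap ℤ ℂ)).mahlerMeasure := by
  have : ((-f).map (algebraMap ℤ ℂ)) = C (-1) * (f.map (algebraMap ℤ ℂ)) := by
    simp
  rw [this, mahlerMeasure_mul, mahlerMeasure_const]
  simp

theorem unit_case {f : ℤ[X]} (hl : |f.leadingCoeff| = 1)
    (hM : 1 < (f.map (algebraMap ℤ ℂ)).mahlerMeasure) :
    1 / (1600 * (f.natDegree : ℝ))
      < ((f.map (algebraMap ℤ ℂ)).roots.map fun α => (Real.posLog ‖α‖) ^ 2).sum := by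
  rcases (abs_eq (by norm_num : (0 : ℤ) ≤ 1)).mp hl with h2 | h2
  · exact monic_case h2 hM
  · have hm : (-f).Monic := by
      unfold Monic
      rw [leadingCoeff_neg, h2]; norm_num
    rw [← measure_neg] at hM
    have := monic_case hm hM
    have h3 : (((-f).map (algebraMap ℤ ℂ)).roots) = (f.map (algebraMap ℤ ℂ)).roots := by
      rw [Polynomial.map_neg, roots_neg]
    rw [h3, natDegree_neg] at this
    exact this

/-! ### the reversed polynomial -/

theorem reverse_X_sub_C {z : ℂ} (hz : z ≠ 0) :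
    (X - C z : ℂ[X]).reverse = C (-z) * (X - C z⁻¹) := by
  unfold reverse
  rw [natDegree_X_sub_C, reflect_sub, reflect_one_X, reflect_C, pow_one, mul_sub, ← C_mul,
    neg_mul, mul_inv_cancel₀ hz, C_neg, C_neg, C_1]
  ring

theorem reverse_prod (s : Multiset ℂ) (hs : ∀ z ∈ s, z ≠ 0) :
    ((s.map fun z => (X - C z : ℂ[X])).prod).reverse =
      C ((s.map fun z => -z).prod) * ((s.map fun z => z⁻¹).map fun z => (X - C z : ℂ[X])).prod := by
  induction s using Multiset.induction with
  | empty => simp [reverse, reflect_one]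
  | cons a s ih =>
    have h1 := ih fun z hz => hs z (Multiset.mem_cons_of_mem hz)
    rw [Multiset.map_cons, Multiset.prod_cons, reverse_mul_of_domain, h1,
      reverse_X_sub_C (hs a (Multiset.mem_cons_self a s))]
    simp only [Multiset.map_cons, Multiset.prod_cons, C_mul]
    ring

theorem roots_reverse {F : ℂ[X]} (h0 : F.coeff 0 ≠ 0) :
    F.reverse.roots = F.roots.map fun z => z⁻¹ := by
  have hF : F ≠ 0 := by
    rintro rfl
    exact h0 (coeff_zero 0)
  have hz : ∀ z ∈ F.roots, z ≠ 0 := by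
    rintro z hz rfl
    apply h0
    have := (mem_roots hF).1 hz
    rw [IsRoot.def, ← coeff_zero_eq_eval_zero] at this
    exact this
  have h1 := (IsAlgClosed.splits F).eq_prod_roots
  have h2 : F.reverse = C (F.leadingCoeff * (F.roots.map fun z => -z).prod) *
      ((F.roots.map fun z => z⁻¹).map fun z => (X - C z : ℂ[X])).prod := by
    conv_lhs => rw [h1]
    rw [reverse_mul_of_domain, reverse_prod _ hz, C_mul, mul_assoc]
    congr 1
    simp [reverse]
  have h3 : F.leadingCoeff * (F.roots.map fun z => -z).prod ≠ 0 := by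
    refine mul_ne_zero (leadingCoeff_ne_zero.2 hF) ?_
    refine Multiset.prod_ne_zero ?_
    intro h
    obtain ⟨z, hz', h4⟩ := Multiset.mem_map.1 h
    exact hz z hz' (neg_eq_zero.1 h4)
  rw [h2, roots_C_mul _ h3, roots_multiset_prod_X_sub_C]

theorem reverse_map_int (f : ℤ[X]) :
    (f.reverse.map (algebraMap ℤ ℂ)) = (f.map (algebraMap ℤ ℂ)).reverse := by
  unfold reverse
  rw [← reflect_map, natDegree_map_eq_of_injective
    (algebraMap_int_eq ℂ ▸ RingHom.injective_int _)]

theorem inner_sq (f : ℤ[X]) (hf : |f.coeff 0| = 1)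
    (hM : 1 < (f.map (algebraMap ℤ ℂ)).mahlerMeasure) :
    1 / (1600 * (f.natDegree : ℝ))
      < ((f.map (algebraMap ℤ ℂ)).roots.map fun z => (max 0 (-Real.log ‖z‖)) ^ 2).sum := by
  set F := f.map (algebraMap ℤ ℂ) with hFdef
  have hf0 : f.coeff 0 ≠ 0 := by
    intro h; rw [h] at hf; simp at hf
  have hF0 : F.coeff 0 = ((f.coeff 0 : ℤ) : ℂ) := by
    rw [hFdef, coeff_map, algebraMap_int_eq, eq_intCast]
  have hF0' : F.coeff 0 ≠ 0 := by
    rw [hF0]; exact_mod_cast hf0
  have hFn : ‖F.coeff 0‖ = 1 := by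
    rw [hF0, Complex.norm_intCast]
    exact_mod_cast hf
  have hne : F ≠ 0 := by
    intro h; rw [h, coeff_zero] at hF0'; exact hF0' rfl
  have hz : ∀ z ∈ F.roots, z ≠ 0 := by
    rintro z hz rfl
    apply hF0'
    have := (mem_roots hne).1 hz
    rw [IsRoot.def, ← coeff_zero_eq_eval_zero] at this
    exact this
  have htd : f.natTrailingDegree = 0 := natTrailingDegree_eq_zero.2 (Or.inr hf0)
  have hgd : f.reverse.natDegree = f.natDegree := by
    rw [reverse_natDegree, htd, Nat.sub_zero]
  have hgl : f.reverse.leadingCoeff = f.coeff 0 := by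
    rw [reverse_leadingCoeff, trailingCoeff, htd]
  have hgr : (f.reverse.map (algebraMap ℤ ℂ)).roots = F.roots.map fun z => z⁻¹ := by
    rw [reverse_map_int, roots_reverse hF0']
  -- the measures agree
  have hcoeff : ‖F.leadingCoeff‖ * (F.roots.map fun z => ‖z‖).prod = 1 := by
    have h1 := (IsAlgClosed.splits F).eq_prod_roots
    have h2 : F.coeff 0 = F.leadingCoeff * (F.roots.map fun z => -z).prod := by
      rw [coeff_zero_eq_eval_zero]
      conv_lhs => rw [h1]
      rw [eval_mul, eval_C, eval_multiset_prod, Multiset.map_map]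
      congr 2
      refine Multiset.map_congr rfl fun z _ => ?_
      simp
    rw [← hFn, h2, norm_mul]
    congr 1
    have h3 : ∀ s : Multiset ℂ, ‖(s.map fun z => -z).prod‖ = (s.map fun z => ‖z‖).prod := by
      intro s
      induction s using Multiset.induction with
      | empty => simp
      | cons a s ih =>
        rw [Multiset.map_cons, Multiset.prod_cons, norm_mul, ih, norm_neg, Multiset.map_cons,
          Multiset.prod_cons]
    rw [h3]
  have hmeas : (f.reverse.map (algebraMap ℤ ℂ)).mahlerMeasure = F.mahlerMeasure := by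
    rw [mahlerMeasure_eq_leadingCoeff_mul_prod_roots, mahlerMeasure_eq_leadingCoeff_mul_prod_roots,
      hgr, leadingCoeff_map_of_injective (algebraMap_int_eq ℂ ▸ RingHom.injective_int _), hgl]
    have h4 : ‖(algebraMap ℤ ℂ) (f.coeff 0)‖ = 1 := by
      rw [algebraMap_int_eq, eq_intCast, Complex.norm_intCast]
      exact_mod_cast hf
    rw [h4, one_mul, Multiset.map_map]
    have h5 : (F.roots.map fun z => max 1 ‖z‖).prod = (F.roots.map fun z => ‖z‖).prod *
        (F.roots.map fun z => max 1 ‖z⁻¹‖).prod := by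
      rw [← Multiset.prod_map_mul]
      congr 1
      refine Multiset.map_congr rfl fun z hz' => ?_
      have h6 : 0 < ‖z‖ := norm_pos_iff.2 (hz z hz')
      rw [norm_inv, mul_max_of_nonneg _ _ h6.le, mul_one, mul_inv_cancel₀ h6.ne', max_comm]
    rw [h5, ← mul_assoc, hcoeff, one_mul]
    rfl
  have hmain := unit_case (f := f.reverse) (by rw [hgl]; exact hf) (by rw [hmeas]; exact hM)
  rw [hgd, hgr, Multiset.map_map] at hmain
  refine hmain.trans_le (le_of_eq ?_)
  congr 1
  refine Multiset.map_congr rfl fun z _ => ?_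
  simp only [Function.comp_apply]
  rw [Real.posLog_apply, norm_inv, Real.log_inv]

theorem sq_ineq (l σ : ℝ) (hσ : 0 ≤ σ) :
    (max 0 l) ^ 2 / 4 - σ ^ 2 ≤ (max 0 (l - σ)) ^ 2 := by
  rcases le_total l (2 * σ) with h | h
  · have h1 : max 0 l ≤ 2 * σ := max_le (by linarith) h
    have h2 : 0 ≤ max 0 l := le_max_left _ _
    have h3 : (max 0 l) ^ 2 ≤ (2 * σ) ^ 2 := pow_le_pow_left₀ h2 h1 2
    nlinarith [sq_nonneg (max 0 (l - σ))]
  · rw [max_eq_right (by linarith : (0 : ℝ) ≤ l), max_eq_right (by linarith : (0 : ℝ) ≤ l - σ)]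
    nlinarith

theorem sq_lower (f : ℤ[X]) (hf : |f.coeff 0| = 1)
    (hM : 1 < (f.map (algebraMap ℤ ℂ)).mahlerMeasure) :
    3 / (25600 * (f.natDegree : ℝ))
      ≤ ((f.map (algebraMap ℤ ℂ)).roots.map fun z =>
          (max 0 (-Real.log ‖z‖ - 1 / (160 * f.natDegree))) ^ 2).sum := by
  have h1 := inner_sq f hf hM
  set F := f.map (algebraMap ℤ ℂ) with hFdef
  have hcard : F.roots.card = f.natDegree := by
    have h2 : F.natDegree = f.natDegree := natDegree_map_eq_of_injective
      (algebraMap_int_eq ℂ ▸ RingHom.injective_int _) f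
    rw [← h2]
    exact (splits_iff_card_roots.1 (IsAlgClosed.splits F))
  rcases Nat.eq_zero_or_pos f.natDegree with hn | hn
  · rw [hn]
    simp only [Nat.cast_zero, mul_zero, div_zero, sub_zero]
    refine Multiset.sum_nonneg ?_
    intro x hx
    obtain ⟨a, _, rfl⟩ := Multiset.mem_map.mp hx
    positivity
  · have hn' : (0 : ℝ) < f.natDegree := by exact_mod_cast hn
    set σ : ℝ := 1 / (160 * (f.natDegree : ℝ)) with hσ
    have hσ0 : 0 ≤ σ := by positivity
    have h2 : (F.roots.map fun z => (max 0 (-Real.log ‖z‖)) ^ 2 / 4 - σ ^ 2).sum ≤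
        (F.roots.map fun z => (max 0 (-Real.log ‖z‖ - σ)) ^ 2).sum :=
      Multiset.sum_map_le_sum_map _ _ fun z _ => sq_ineq _ _ hσ0
    refine le_trans ?_ h2
    have h3 : (F.roots.map fun z => (max 0 (-Real.log ‖z‖)) ^ 2 / 4 - σ ^ 2).sum =
        (F.roots.map fun z => (max 0 (-Real.log ‖z‖)) ^ 2).sum / 4 - f.natDegree * σ ^ 2 := by
      rw [← hcard]
      generalize F.roots = s
      induction s using Multiset.induction with
      | empty => simp
      | cons a s ih =>
        rw [Multiset.map_cons, Multiset.sum_cons, ih, Multiset.map_cons, Multiset.sum_cons,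
          Multiset.card_cons]
        push_cast
        ring
    rw [h3]
    have h4 : (f.natDegree : ℝ) * σ ^ 2 = 1 / (25600 * f.natDegree) := by
      rw [hσ]; field_simp; norm_num
    rw [h4]
    have h5 : 3 / (25600 * (f.natDegree : ℝ)) =
        1 / (1600 * (f.natDegree : ℝ)) / 4 - 1 / (25600 * f.natDegree) := by
      field_simp; norm_num
    rw [h5]
    linarith

end Pool.Agent.H61.Sparse
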