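import Mathlib

/-! Numerical inequalities. -/

set_option autoImplicit false

namespace Pool.Agent.H61.Sparse

/-- the lower bound -/
noncomputable def rho (t : ℕ) : ℝ := 1 / (500 * (t : ℝ)) ^ (3 * t)

lemma five_hundred_le (t : ℕ) (ht : 0 < t) : 500 * (t : ℝ) ≤ Real.exp (7 * t) := by
  have h1 : (1 : ℝ) ≤ t := by exact_mod_cast ht
  have h2 : (2.7182818283 : ℝ) < Real.exp 1 := Real.exp_one_gt_d9
  have h3 : (500 : ℝ) ≤ Real.exp 6.5 := by
    have h4 : Real.exp 6.5 = Real.exp 1 ^ 6 * Real.exp 0.5 := by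
      rw [← Real.exp_nat_mul, ← Real.exp_add]; norm_num
    have h5 : (1.5 : ℝ) ≤ Real.exp 0.5 := by
      have := Real.add_one_le_exp (0.5 : ℝ); linarith
    have h6 : (2.718 : ℝ) ^ 6 ≤ Real.exp 1 ^ 6 := by
      apply pow_le_pow_left₀ (by norm_num) (by linarith)
    rw [h4]
    have h7 : (500 : ℝ) ≤ 2.718 ^ 6 * 1.5 := by norm_num
    exact h7.trans (mul_le_mul h6 h5 (by norm_num) (by positivity))
  have h8 : (t : ℝ) ≤ Real.exp (0.5 * t) := by
    have h9 := Real.quadratic_le_exp_of_nonneg (show (0 : ℝ) ≤ 0.5 * t by positivity)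
    nlinarith [sq_nonneg ((t : ℝ) - 2)]
  calc 500 * (t : ℝ) ≤ Real.exp 6.5 * Real.exp (0.5 * t) :=
        mul_le_mul h3 h8 (by positivity) (by positivity)
    _ = Real.exp (6.5 + 0.5 * t) := (Real.exp_add _ _).symm
    _ ≤ Real.exp (7 * t) := Real.exp_le_exp.mpr (by linarith)

lemma pow_le (t : ℕ) (ht : 0 < t) : (500 * (t : ℝ)) ^ (3 * t) ≤ Real.exp (21 * t ^ 2) := by
  calc (500 * (t : ℝ)) ^ (3 * t) ≤ (Real.exp (7 * t)) ^ (3 * t) :=
        pow_le_pow_left₀ (by positivity) (five_hundred_le t ht) _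
    _ = Real.exp (21 * t ^ 2) := by
        rw [← Real.exp_nat_mul]; congr 1; push_cast; ring

lemma rho_pos (t : ℕ) (ht : 0 < t) : 0 < rho t := by
  unfold rho
  have h1 : (0 : ℝ) < t := by exact_mod_cast ht
  positivity

lemma exp_neg_le_rho (t : ℕ) (ht : 0 < t) : Real.exp (-(21 * t ^ 2)) ≤ rho t := by
  have h1 : (0 : ℝ) < t := by exact_mod_cast ht
  unfold rho
  rw [Real.exp_neg, ← one_div]
  exact one_div_le_one_div_of_le (by positivity) (pow_le t ht)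

lemma rho_le (t : ℕ) (ht : 0 < t) : rho t ≤ 1 / 500 := by
  have h1 : (1 : ℝ) ≤ t := by exact_mod_cast ht
  unfold rho
  apply one_div_le_one_div_of_le (by norm_num)
  calc (500 : ℝ) ≤ (500 * (t : ℝ)) ^ 1 := by rw [pow_one]; nlinarith
    _ ≤ (500 * (t : ℝ)) ^ (3 * t) := pow_le_pow_right₀ (by nlinarith) (by omega)

/-- numerical inequality of the first case -/
lemma num_one (t : ℕ) (ht : 0 < t) :
    4 * Real.exp (35 * t) * Real.exp (-((500 * (t : ℝ)) ^ 3 / 25600 / (2 * t))) ≤ rho t := by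
  have h1 : (1 : ℝ) ≤ t := by exact_mod_cast ht
  have h2 : (500 * (t : ℝ)) ^ 3 / 25600 / (2 * t) = 500 ^ 3 / 51200 * t ^ 2 := by
    field_simp; norm_num
  have h3 : (4 : ℝ) ≤ Real.exp 3 := by
    have := Real.add_one_le_exp (3 : ℝ); linarith
  rw [h2]
  refine le_trans ?_ (exp_neg_le_rho t ht)
  calc 4 * Real.exp (35 * t) * Real.exp (-(500 ^ 3 / 51200 * (t : ℝ) ^ 2))
      ≤ Real.exp 3 * Real.exp (35 * t) * Real.exp (-(500 ^ 3 / 51200 * (t : ℝ) ^ 2)) := by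
        gcongr
    _ = Real.exp (3 + 35 * t + -(500 ^ 3 / 51200 * (t : ℝ) ^ 2)) := by
        rw [Real.exp_add, Real.exp_add]
    _ ≤ _ := Real.exp_le_exp.mpr (by norm_num; nlinarith)

/-- numerical inequality of the second case -/
lemma num_two (t : ℕ) (ht : 0 < t) {u : ℝ} (hu : (500 * (t : ℝ)) ^ 3 / 160 ≤ u) :
    Real.exp (35 * t) * Real.exp (-(u / (2 * t))) ≤ rho t := by
  have h1 : (1 : ℝ) ≤ t := by exact_mod_cast ht
  have h2 : 390625 * (t : ℝ) ^ 2 ≤ u / (2 * t) := by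
    rw [le_div_iff₀ (by positivity)]
    calc 390625 * (t : ℝ) ^ 2 * (2 * t) = (500 * (t : ℝ)) ^ 3 / 160 := by ring
      _ ≤ u := hu
  refine le_trans ?_ (exp_neg_le_rho t ht)
  rw [← Real.exp_add]
  apply Real.exp_le_exp.mpr
  nlinarith

lemma rho_step (t : ℕ) (ht : 1 < t) : 2 * rho t ≤ rho (t - 1) := by
  obtain ⟨s, rfl⟩ : ∃ s, t = s + 1 := ⟨t - 1, by omega⟩
  have hs : 0 < s := by omega
  have h1 : (1 : ℝ) ≤ s := by exact_mod_cast hs
  rw [Nat.add_sub_cancel]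
  unfold rho
  have h2 : (500 * (s : ℝ)) ^ (3 * s) * 2 ≤ (500 * ((s + 1 : ℕ) : ℝ)) ^ (3 * (s + 1)) := by
    have h3 : (500 * (s : ℝ)) ^ (3 * s) ≤ (500 * ((s + 1 : ℕ) : ℝ)) ^ (3 * s) := by
      apply pow_le_pow_left₀ (by positivity)
      push_cast; linarith
    have h4 : (2 : ℝ) ≤ (500 * ((s + 1 : ℕ) : ℝ)) ^ 3 := by
      push_cast
      have : (1 : ℝ) ≤ (s : ℝ) + 1 := by linarith
      calc (2 : ℝ) ≤ (500 * 1) ^ 3 := by norm_num
        _ ≤ _ := pow_le_pow_left₀ (by norm_num) (by linarith) _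
    have h5 : 3 * (s + 1) = 3 * s + 3 := by ring
    rw [h5, pow_add]
    exact mul_le_mul h3 h4 (by norm_num) (by positivity)
  rw [mul_one_div, div_le_div_iff₀ (by positivity) (by positivity)]
  linarith

end Pool.Agent.H61.Sparse
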