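import Mathlib

/-!
JOB.  `exists_split`, by strong induction on the number of elements.

Let `n = max S` and `b = max (S \ {n})`.  If `K b ≤ n` take `a = n`.
Otherwise `n < K b`, so `b > 0` and `S' = S \ {n}` still has at least two elements (`0` and `b`);
the induction hypothesis for `S'` gives `a ∈ S'` with `c ≤ K^(|S'| - 2) a` for `c ∈ S'`, so
`n < K b ≤ K^(|S| - 2) a`; elements of `S` below `a` are in `S'` as `a ≤ b < n`.
-/

set_option autoImplicit false

namespace Pool.Agent.H61.Sparse

theorem exists_split (S : Finset ℕ) (h0 : 0 ∈ S) (hS : 1 < S.card) (K : ℝ) (hK : 1 ≤ K) :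
    ∃ a ∈ S, 0 < a ∧ (∀ b ∈ S, b < a → K * (b : ℝ) ≤ a) ∧
      ∀ b ∈ S, (b : ℝ) ≤ K ^ (S.card - 2) * a := by
  induction hm : S.card using Nat.strong_induction_on generalizing S with
  | _ m ih =>
    have hne : S.Nonempty := ⟨0, h0⟩
    set n := S.max' hne with hn
    have hnS : n ∈ S := S.max'_mem hne
    have hnpos : 0 < n := by
      obtain ⟨c, hc, hc0⟩ := Finset.exists_mem_ne hS 0
      have := S.le_max' c hc
      omega
    have h0' : 0 ∈ S.erase n := Finset.mem_erase.2 ⟨hnpos.ne, h0⟩
    have hne' : (S.erase n).Nonempty := ⟨0, h0'⟩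
    set b := (S.erase n).max' hne' with hb
    have hbS : b ∈ S.erase n := (S.erase n).max'_mem hne'
    have hcard : (S.erase n).card = S.card - 1 := Finset.card_erase_of_mem hnS
    have hK0 : 0 < K := by linarith
    by_cases hKb : K * (b : ℝ) ≤ n
    · refine ⟨n, hnS, hnpos, ?_, ?_⟩
      · intro c hc hcn
        have hc' : c ∈ S.erase n := Finset.mem_erase.2 ⟨hcn.ne, hc⟩
        have h1 : (c : ℝ) ≤ b := by exact_mod_cast (S.erase n).le_max' c hc'
        exact (mul_le_mul_of_nonneg_left h1 hK0.le).trans hKb
      · intro c hc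
        have h1 : (c : ℝ) ≤ n := by exact_mod_cast S.le_max' c hc
        have h2 : 1 ≤ K ^ (m - 2) := one_le_pow₀ hK
        have h3 : (0 : ℝ) ≤ n := Nat.cast_nonneg n
        nlinarith
    · have hKb : (n : ℝ) < K * b := not_le.1 hKb
      have hbpos : 0 < b := by
        rcases Nat.eq_zero_or_pos b with h | h
        · exfalso
          rw [h] at hKb
          have h3 : (0 : ℝ) ≤ n := Nat.cast_nonneg n
          simp at hKb
          linarith
        · exact h
      have hS' : 1 < (S.erase n).card :=
        Finset.one_lt_card.2 ⟨0, h0', b, hbS, hbpos.ne⟩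
      obtain ⟨a, haS, ha0, ha1, ha2⟩ := ih (S.erase n).card (by omega) (S.erase n) h0' hS' rfl
      refine ⟨a, Finset.mem_of_mem_erase haS, ha0, ?_, ?_⟩
      · intro c hc hca
        refine ha1 c (Finset.mem_erase.2 ⟨?_, hc⟩) hca
        intro h
        have h4 : a ≤ b := (S.erase n).le_max' a haS
        have h5 : b ≤ n := S.le_max' b (Finset.mem_of_mem_erase hbS)
        omega
      · have hpow : K ^ (m - 2) = K * K ^ ((S.erase n).card - 2) := by
          rw [← pow_succ']
          congr 1
          omega
        have ha0' : (0 : ℝ) ≤ a := Nat.cast_nonneg a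
        have hKp : 0 ≤ K ^ ((S.erase n).card - 2) := by positivity
        intro c hc
        by_cases hcn : c = n
        · rw [hcn, hpow]
          have h1 := ha2 b hbS
          have h2 := mul_le_mul_of_nonneg_left h1 hK0.le
          nlinarith
        · have h1 := ha2 c (Finset.mem_erase.2 ⟨hcn, hc⟩)
          rw [hpow]
          have h2 : 0 ≤ K ^ ((S.erase n).card - 2) * (a : ℝ) := mul_nonneg hKp ha0'
          nlinarith

end Pool.Agent.H61.Sparse
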