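import Pool.Agent.H61.Sparse.Roots

/-!
JOB.  `sum_sq_le` from `mm_eq`.

For every real `l` and `h > 0` and `N ≥ l / h`:
`(max 0 l)^2 ≤ 2 h ∑_{i < N} max 0 (l - i h)`.  Indeed for `l ≥ 0` let
`M = ⌊l/h⌋ < N + 1`; if `M + 1 ≤ N` the sum over `i ≤ M` is `(M+1) l - h M (M+1)/2`, twice `h` times it is
`h (M+1) (2 l - h M) ≥ l^2` since `h (M+1) ≥ l` and `2 l - h M ≥ l`.
(Alternative: induction on `N` for the claim with `l ≤ N h`: comparing `l` and `l - h`,
`l^2 ≤ 2 h l + (max 0 (l - h))^2`, which is `h^2 ≥ 0` for `l ≥ h` and `l^2 ≤ 2 h l` for `l ≤ h`.)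
Take `N0` with `N0 h ≥ - log |z| - σ` for all the finitely many roots and sum; exchange the sums.
-/

set_option autoImplicit false

namespace Pool.Agent.H61.Sparse

open Polynomial

theorem ss_point (h : ℝ) (hh : 0 < h) (N : ℕ) : ∀ l : ℝ, l ≤ N * h →
    (max 0 l) ^ 2 ≤ 2 * h * ∑ i ∈ Finset.range N, max 0 (l - i * h) := by
  induction N with
  | zero =>
    intro l hl
    have h1 : l ≤ 0 := by simpa using hl
    rw [max_eq_left h1]
    simp
  | succ N ih =>
    intro l hl
    have h1 := ih (l - h) (by push_cast at hl; linarith)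
    have h2 : ∑ i ∈ Finset.range (N + 1), max 0 (l - i * h) =
        ∑ i ∈ Finset.range N, max 0 ((l - h) - i * h) + max 0 l := by
      rw [Finset.sum_range_succ']
      congr 1
      · refine Finset.sum_congr rfl fun i _ => ?_
        congr 1
        push_cast
        ring
      · simp
    rw [h2, mul_add]
    have h3 : (max 0 l) ^ 2 ≤ 2 * h * max 0 l + (max 0 (l - h)) ^ 2 := by
      rcases le_total l 0 with h4 | h4
      · rw [max_eq_left h4, max_eq_left (by linarith : l - h ≤ 0)]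
        norm_num
      · rw [max_eq_right h4]
        rcases le_total l h with h5 | h5
        · have h6 : 0 ≤ (max 0 (l - h)) ^ 2 := sq_nonneg _
          nlinarith
        · rw [max_eq_right (by linarith : 0 ≤ l - h)]
          nlinarith
    linarith

theorem ss_multiset (σ h : ℝ) (hh : 0 < h) (S : Multiset ℂ) (N : ℕ)
    (hN : ∀ z ∈ S, -Real.log ‖z‖ - σ ≤ N * h) :
    (S.map fun z => (max 0 (-Real.log ‖z‖ - σ)) ^ 2).sum ≤
      2 * h * ∑ i ∈ Finset.range N, (S.map fun z => max 0 (-Real.log ‖z‖ - (σ + i * h))).sum := by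
  induction S using Multiset.induction_on with
  | empty => simp
  | cons a S ih =>
    have h1 := ih fun z hz => hN z (Multiset.mem_cons_of_mem hz)
    have h2 := ss_point h hh N _ (hN a (Multiset.mem_cons_self a S))
    simp only [Multiset.map_cons, Multiset.sum_cons, Finset.sum_add_distrib, mul_add]
    have h3 : ∑ i ∈ Finset.range N, max 0 (-Real.log ‖a‖ - (σ + i * h)) =
        ∑ i ∈ Finset.range N, max 0 (-Real.log ‖a‖ - σ - i * h) :=
      Finset.sum_congr rfl fun i _ => by rw [sub_sub]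
    rw [h3]
    linarith

theorem ss_bound (σ h : ℝ) (hh : 0 < h) (S : Multiset ℂ) :
    ∃ N0 : ℕ, ∀ z ∈ S, -Real.log ‖z‖ - σ ≤ N0 * h := by
  induction S using Multiset.induction_on with
  | empty => exact ⟨0, by simp⟩
  | cons a S ih =>
    obtain ⟨N1, hN1⟩ := ih
    obtain ⟨N2, hN2⟩ := exists_nat_ge ((-Real.log ‖a‖ - σ) / h)
    refine ⟨max N1 N2, fun z hz => ?_⟩
    rcases Multiset.mem_cons.mp hz with rfl | hz
    · rw [div_le_iff₀ hh] at hN2
      refine hN2.trans (mul_le_mul_of_nonneg_right ?_ hh.le)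
      exact_mod_cast le_max_right N1 N2
    · refine (hN1 z hz).trans (mul_le_mul_of_nonneg_right ?_ hh.le)
      exact_mod_cast le_max_left N1 N2

theorem sum_sq_le (f : ℂ[X]) (hf : ‖f.coeff 0‖ = 1) (σ h : ℝ) (hh : 0 < h) :
    ∃ N0 : ℕ, ∀ N ≥ N0, (f.roots.map fun z => (max 0 (-Real.log ‖z‖ - σ)) ^ 2).sum
      ≤ 2 * h * ∑ i ∈ Finset.range N, mm f (σ + i * h) := by
  obtain ⟨N0, hN0⟩ := ss_bound σ h hh f.roots
  refine ⟨N0, fun N hN => ?_⟩
  have h1 := ss_multiset σ h hh f.roots N fun z hz => (hN0 z hz).trans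
    (mul_le_mul_of_nonneg_right (by exact_mod_cast hN) hh.le)
  simpa only [mm_eq f hf] using h1

end Pool.Agent.H61.Sparse
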