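import Pool.Agent.H61.Sparse.Cut
import Pool.Agent.H61.Sparse.SumSq
import Pool.Agent.H61.Sparse.Inner
import Pool.Agent.H61.Sparse.Split
import Pool.Agent.H61.Sparse.Num
import Pool.Prelude.Def_F_0dc91acc

/-! Assembly. -/

set_option autoImplicit false

namespace Pool.Agent.H61.Sparse

open Polynomial

/-- image in `ℂ[X]` -/
noncomputable def cm (f : ℤ[X]) : ℂ[X] := f.map (algebraMap ℤ ℂ)

lemma cm_coeff (f : ℤ[X]) (i : ℕ) : (cm f).coeff i = ((f.coeff i : ℤ) : ℂ) := by
  simp [cm]

lemma inj : Function.Injective (algebraMap ℤ ℂ) := by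
  rw [algebraMap_int_eq]; exact RingHom.injective_int _

lemma cm_support (f : ℤ[X]) : (cm f).support = f.support := support_map_of_injective _ inj

lemma cm_natDegree (f : ℤ[X]) : (cm f).natDegree = f.natDegree :=
  natDegree_map_eq_of_injective inj f

lemma cm_ne_zero {f : ℤ[X]} (hf : f ≠ 0) : cm f ≠ 0 :=
  (Polynomial.map_ne_zero_iff inj).mpr hf

lemma cm_norm_coeff (f : ℤ[X]) (hf : |f.coeff 0| = 1) : ‖(cm f).coeff 0‖ = 1 := by
  rw [cm_coeff, Complex.norm_intCast]
  exact_mod_cast hf

/-- the part of `f` of degree `< a` -/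
noncomputable def low (f : ℤ[X]) (a : ℕ) : ℤ[X] :=
  ∑ i ∈ Finset.range a, C (f.coeff i) * X ^ i

lemma low_coeff (f : ℤ[X]) (a j : ℕ) : (low f a).coeff j = if j < a then f.coeff j else 0 := by
  unfold low
  rw [finsetSum_coeff]
  simp only [coeff_C_mul, coeff_X_pow]
  simp

lemma low_support (f : ℤ[X]) (a : ℕ) : (low f a).support = f.support.filter (· < a) := by
  ext j
  simp only [mem_support_iff, low_coeff, Finset.mem_filter]
  split_ifs with h <;> simp [h]

lemma one_le_M {f : ℤ[X]} (hf : f ≠ 0) : 1 ≤ (cm f).mahlerMeasure := by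
  apply one_le_mahlerMeasure_of_one_le_norm_leadingCoeff
  rw [cm, leadingCoeff_map_of_injective inj]
  rw [algebraMap_int_eq, eq_intCast, Complex.norm_intCast]
  have := leadingCoeff_ne_zero.mpr hf
  have h2 : (1 : ℤ) ≤ |f.leadingCoeff| := Int.one_le_abs this
  exact_mod_cast h2

/-- a polynomial with one term and constant coefficient `± 1` has measure one -/
lemma M_eq_one_of_card (f : ℤ[X]) (hf : |f.coeff 0| = 1) (hc : f.support.card ≤ 1) :
    (cm f).mahlerMeasure = 1 := by
  have h0 : f.coeff 0 ≠ 0 := by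
    intro h; rw [h] at hf; simp at hf
  have h1 : f = C (f.coeff 0) := by
    ext i
    rw [coeff_C]
    split_ifs with h
    · rw [h]
    · by_contra hne
      have h2 : ({0, i} : Finset ℕ) ⊆ f.support := by
        intro x hx
        simp only [Finset.mem_insert, Finset.mem_singleton] at hx
        rcases hx with rfl | rfl
        · exact mem_support_iff.mpr h0
        · exact mem_support_iff.mpr hne
      have h3 := Finset.card_le_card h2
      rw [Finset.card_pair (Ne.symm h)] at h3
      omega
  have h2 : cm f = C ((f.coeff 0 : ℤ) : ℂ) := by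
    rw [cm]; conv_lhs => rw [h1]
    simp
  rw [h2, mahlerMeasure_const, Complex.norm_intCast]
  exact_mod_cast hf

lemma natDegree_pos_of_M (f : ℤ[X]) (hf : |f.coeff 0| = 1) (hM : 1 < (cm f).mahlerMeasure) :
    0 < f.natDegree := by
  by_contra h
  have h1 : f.natDegree = 0 := by omega
  have h2 : f.support.card ≤ 1 := by
    have := card_supp_le_succ_natDegree f
    omega
  rw [M_eq_one_of_card f hf h2] at hM
  exact lt_irrefl _ hM

lemma sum_sub_le (f : ℤ[X]) (a : ℕ) :
    ((cm f - cm (low f a)).sum fun _ c => ‖c‖) ≤ (cm f).sum fun _ c => ‖c‖ := by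
  have h1 : ∀ i, (cm f - cm (low f a)).coeff i = if i < a then 0 else (cm f).coeff i := by
    intro i
    rw [coeff_sub, cm_coeff, cm_coeff, low_coeff]
    split_ifs <;> simp
  have h2 : (cm f - cm (low f a)).support ⊆ (cm f).support := by
    intro i hi
    rw [mem_support_iff, h1] at hi
    rw [mem_support_iff]
    split_ifs at hi with h
    · exact absurd rfl hi
    · exact hi
  rw [Polynomial.sum_def, Polynomial.sum_def]
  calc ∑ i ∈ (cm f - cm (low f a)).support, ‖(cm f - cm (low f a)).coeff i‖
      ≤ ∑ i ∈ (cm f - cm (low f a)).support, ‖(cm f).coeff i‖ := by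
        apply Finset.sum_le_sum
        intro i _
        rw [h1]
        split_ifs
        · simp
        · exact le_rfl
    _ ≤ ∑ i ∈ (cm f).support, ‖(cm f).coeff i‖ :=
        Finset.sum_le_sum_of_subset_of_nonneg h2 fun _ _ _ => norm_nonneg _

lemma sum_sub_comm (p q : ℂ[X]) :
    ((p - q).sum fun _ c => ‖c‖) = ((q - p).sum fun _ c => ‖c‖) := by
  have h1 : p - q = -(q - p) := by ring
  rw [h1, Polynomial.sum_def, Polynomial.sum_def, support_neg]
  apply Finset.sum_congr rfl
  intro i _
  rw [coeff_neg, norm_neg]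

/-- the error estimate for the two comparisons -/
lemma errors (t : ℕ) (ht : 0 < t) (f : ℤ[X]) (hc : f.support.card ≤ t + 1) (hf : |f.coeff 0| = 1)
    (hM : (cm f).logMahlerMeasure ≤ 1) (a : ℕ) (ha : 0 < a) {s : ℝ} (hs : 0 ≤ s) :
    mm (cm f) s ≤ mm (cm (low f a)) s + Real.exp (35 * t) * Real.exp (-(a * s / (2 * t))) ∧
    mm (cm (low f a)) s ≤ mm (cm f) s + Real.exp (35 * t) * Real.exp (-(a * s / (2 * t))) := by
  have hlow0 : |(low f a).coeff 0| = 1 := by rw [low_coeff, if_pos ha]; exact hf
  have hagree : ∀ i < a, (cm f).coeff i = (cm (low f a)).coeff i := by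
    intro i hi
    rw [cm_coeff, cm_coeff, low_coeff, if_pos hi]
  have hlc : (low f a).support.card ≤ t + 1 := by
    rw [low_support]
    exact (Finset.card_filter_le _ _).trans hc
  have hL : ((cm f).sum fun _ c => ‖c‖) ≤ (t + 1) * Real.exp (1 + GG t 1) :=
    coeff_sum_le t ht _ (by rw [cm_support]; exact hc) hM
  have hL0 : (0 : ℝ) ≤ (t + 1) * Real.exp (1 + GG t 1) := by positivity
  have hb := GG_bound t ht (a * s)
  constructor
  · have h1 := cut_le t ht (cm (low f a)) (cm f) (by rw [cm_support]; exact hlc)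
      (cm_norm_coeff _ hlow0) (cm_norm_coeff _ hf) a hagree hL0
      ((sum_sub_le f a).trans hL) hs
    linarith
  · have h1 := cut_le t ht (cm f) (cm (low f a)) (by rw [cm_support]; exact hc)
      (cm_norm_coeff _ hf) (cm_norm_coeff _ hlow0) a (fun i hi => (hagree i hi).symm) hL0
      (by rw [sum_sub_comm]; exact (sum_sub_le f a).trans hL) hs
    linarith

lemma geom_le (y : ℝ) (hy0 : 0 ≤ y) (hy : y ≤ 1 / 2) (N : ℕ) :
    ∑ i ∈ Finset.range N, y ^ (i + 1) ≤ 2 * y := by
  have h1 : ∑ i ∈ Finset.range N, y ^ (i + 1) = y * ∑ i ∈ Finset.range N, y ^ i := by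
    rw [Finset.mul_sum]
    apply Finset.sum_congr rfl
    intro i _; ring
  have h2 : ∑ i ∈ Finset.range N, y ^ i ≤ 2 := by
    have h3 := geom_sum_mul_neg y N
    have h4 : 0 ≤ y ^ N := by positivity
    nlinarith [Finset.sum_nonneg (fun (i : ℕ) (_ : i ∈ Finset.range N) => pow_nonneg hy0 i)]
  rw [h1]; nlinarith

/-- the first case of the induction -/
lemma case_one (t : ℕ) (ht : 0 < t) (f : ℤ[X]) (hc : f.support.card ≤ t + 1)
    (hf : |f.coeff 0| = 1) (hM1 : 1 < (cm f).mahlerMeasure) (hM : (cm f).logMahlerMeasure ≤ 1)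
    (a : ℕ) (ha : 0 < a) (hn : (f.natDegree : ℝ) ≤ ((500 * (t : ℝ)) ^ 3) ^ (t - 1) * a)
    (hlow : (cm (low f a)).mahlerMeasure = 1) :
    rho t ≤ mm (cm f) (1 / (160 * f.natDegree)) := by
  have ht' : (0 : ℝ) < t := by exact_mod_cast ht
  have ha' : (0 : ℝ) < a := by exact_mod_cast ha
  have hnpos := natDegree_pos_of_M f hf hM1
  have hn' : (0 : ℝ) < f.natDegree := by exact_mod_cast hnpos
  have hlow0 : |(low f a).coeff 0| = 1 := by rw [low_coeff, if_pos ha]; exact hf
  set F := cm f with hF
  set σ : ℝ := 1 / (160 * f.natDegree) with hσ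
  have hσ0 : 0 < σ := by positivity
  set T : ℝ := (500 * (t : ℝ)) ^ 3 / 25600 with hT
  have hTpos : 0 < T := by positivity
  set h : ℝ := T / a with hh
  have hhpos : 0 < h := by positivity
  set B : ℝ := Real.exp (35 * t) with hB
  set y : ℝ := Real.exp (-(T / (2 * t))) with hy
  have hlowmm : ∀ s, 0 ≤ s → mm (cm (low f a)) s ≤ 0 := by
    intro s hs
    have h1 := mm_anti (cm (low f a)) (cm_norm_coeff _ hlow0) hs
    rw [mm_zero, logMahlerMeasure_eq_log_MahlerMeasure, hlow, Real.log_one] at h1
    exact h1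
  have hE : ∀ s, 0 ≤ s → mm F s ≤ B * Real.exp (-(a * s / (2 * t))) := by
    intro s hs
    have h1 := (errors t ht f hc hf hM a ha hs).1
    linarith [hlowmm s hs]
  -- values at the points `σ + i h`
  have hval : ∀ i : ℕ, mm F (σ + (i + 1 : ℕ) * h) ≤ B * y ^ (i + 1) := by
    intro i
    refine (hE _ (by positivity)).trans ?_
    rw [hy, ← Real.exp_nat_mul]
    apply mul_le_mul_of_nonneg_left _ (by positivity)
    apply Real.exp_le_exp.mpr
    have h1 : ((i + 1 : ℕ) : ℝ) * -(T / (2 * t)) = -(a * ((i + 1 : ℕ) * h) / (2 * t)) := by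
      rw [hh]; field_simp
    rw [h1]
    apply neg_le_neg
    apply div_le_div_of_nonneg_right _ (by positivity)
    apply mul_le_mul_of_nonneg_left _ ha'.le
    linarith
  have hnum := num_one t ht
  rw [← hT, ← hB, ← hy] at hnum
  have hy0 : 0 < y := Real.exp_pos _
  have hB1 : 1 ≤ B := Real.one_le_exp (by positivity)
  have hyhalf : y ≤ 1 / 2 := by
    have h1 := rho_le t ht
    nlinarith
  obtain ⟨N0, hN0⟩ := sum_sq_le F (cm_norm_coeff _ hf) σ h hhpos
  have h2 := hN0 (N0 + 1) (by omega)
  rw [Finset.sum_range_succ'] at h2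
  have h3 : ∑ i ∈ Finset.range N0, mm F (σ + (i + 1 : ℕ) * h) ≤ B * (2 * y) := by
    calc ∑ i ∈ Finset.range N0, mm F (σ + (i + 1 : ℕ) * h)
        ≤ ∑ i ∈ Finset.range N0, B * y ^ (i + 1) := Finset.sum_le_sum fun i _ => hval i
      _ = B * ∑ i ∈ Finset.range N0, y ^ (i + 1) := by rw [Finset.mul_sum]
      _ ≤ B * (2 * y) := mul_le_mul_of_nonneg_left (geom_le y hy0.le hyhalf N0) (by positivity)
  have h4 : mm F (σ + ((0 : ℕ) : ℝ) * h) = mm F σ := by simp
  rw [h4] at h2
  have h5 := sq_lower f hf hM1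
  have h6 : 3 / (25600 * (f.natDegree : ℝ)) ≤ 2 * h * (B * (2 * y) + mm F σ) := by
    refine h5.trans (h2.trans ?_)
    apply mul_le_mul_of_nonneg_left _ (by positivity)
    linarith
  -- multiply by `a / (2 T)`
  have h7 : 3 / (25600 * (f.natDegree : ℝ)) * (a / (2 * T)) ≤ B * (2 * y) + mm F σ := by
    have h8 := mul_le_mul_of_nonneg_right h6 (show (0 : ℝ) ≤ a / (2 * T) by positivity)
    have h9 : 2 * h * (B * (2 * y) + mm F σ) * (a / (2 * T)) = B * (2 * y) + mm F σ := by
      rw [hh]; field_simp
    rwa [h9] at h8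
  have h10 : 3 / 2 * rho t ≤ 3 / (25600 * (f.natDegree : ℝ)) * (a / (2 * T)) := by
    have h11 : 3 / (25600 * (f.natDegree : ℝ)) * (a / (2 * T))
        = 3 / 2 * (a / (f.natDegree * (500 * (t : ℝ)) ^ 3)) := by
      rw [hT]; field_simp
    rw [h11]
    apply mul_le_mul_of_nonneg_left _ (by norm_num)
    unfold rho
    rw [div_le_div_iff₀ (by positivity) (by positivity)]
    have h12 : (500 * (t : ℝ)) ^ (3 * t) = ((500 * (t : ℝ)) ^ 3) ^ (t - 1) * (500 * (t : ℝ)) ^ 3 := by
      rw [← pow_mul, ← pow_add]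
      congr 1
      have : 3 * t = 3 * (t - 1) + 3 := by omega
      exact this
    rw [h12, one_mul]
    calc (f.natDegree : ℝ) * (500 * (t : ℝ)) ^ 3
        ≤ (((500 * (t : ℝ)) ^ 3) ^ (t - 1) * a) * (500 * (t : ℝ)) ^ 3 :=
          mul_le_mul_of_nonneg_right hn (by positivity)
      _ = a * (((500 * (t : ℝ)) ^ 3) ^ (t - 1) * (500 * (t : ℝ)) ^ 3) := by ring
  have h13 : B * (2 * y) ≤ 1 / 2 * rho t := by linarith
  linarith

theorem main_ind (t : ℕ) : 0 < t → ∀ f : ℤ[X], f.support.card ≤ t + 1 → |f.coeff 0| = 1 →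
    1 < (cm f).mahlerMeasure → rho t ≤ mm (cm f) (1 / (160 * f.natDegree)) := by
  induction t using Nat.strong_induction_on with
  | _ t ih =>
  intro ht f hc hf hM1
  have ht' : (1 : ℝ) ≤ t := by exact_mod_cast ht
  have hnpos := natDegree_pos_of_M f hf hM1
  have hn' : (0 : ℝ) < f.natDegree := by exact_mod_cast hnpos
  have hσ0 : (0 : ℝ) ≤ 1 / (160 * f.natDegree) := by positivity
  rcases lt_or_ge 1 ((cm f).logMahlerMeasure) with hbig | hM
  · -- large measure
    have h1 := mm_lip (cm f) (cm_norm_coeff _ hf) hσ0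
    rw [mm_zero, cm_natDegree] at h1
    have h2 : (f.natDegree : ℝ) * (1 / (160 * f.natDegree) - 0) = 1 / 160 := by
      field_simp; ring
    rw [h2] at h1
    linarith [rho_le t ht]
  · have h0mem : 0 ∈ f.support := by
      rw [mem_support_iff]; intro h; rw [h] at hf; simp at hf
    have hcard : 1 < f.support.card := by
      by_contra h
      rw [M_eq_one_of_card f hf (by omega)] at hM1
      exact lt_irrefl _ hM1
    have hK : (1 : ℝ) ≤ (500 * (t : ℝ)) ^ 3 := by
      apply one_le_pow₀; linarith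
    obtain ⟨a, ha, hapos, hgap, htop⟩ :=
      exists_split f.support h0mem hcard ((500 * (t : ℝ)) ^ 3) hK
    have hn : (f.natDegree : ℝ) ≤ ((500 * (t : ℝ)) ^ 3) ^ (t - 1) * a := by
      have h1 := htop f.natDegree (natDegree_mem_support_of_nonzero (by
        rintro rfl; simp at hf))
      refine h1.trans ?_
      apply mul_le_mul_of_nonneg_right _ (by positivity)
      exact pow_le_pow_right₀ hK (by omega)
    have hlow0 : |(low f a).coeff 0| = 1 := by rw [low_coeff, if_pos hapos]; exact hf
    have hlowne : low f a ≠ 0 := by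
      intro h; rw [h] at hlow0; simp at hlow0
    rcases (one_le_M hlowne).eq_or_lt with hl | hl
    · exact case_one t ht f hc hf hM1 hM a hapos hn hl.symm
    · -- the low part has measure `> 1`
      have hlc : (low f a).support.card ≤ t := by
        have h1 : (low f a).support ⊆ f.support.erase a := by
          rw [low_support]
          intro i hi
          rw [Finset.mem_filter] at hi
          exact Finset.mem_erase.mpr ⟨by omega, hi.1⟩
        have h2 := Finset.card_le_card h1
        rw [Finset.card_erase_of_mem ha] at h2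
        omega
      have ht1 : 1 < t := by
        by_contra h
        have : t = 1 := by omega
        rw [M_eq_one_of_card _ hlow0 (by omega)] at hl
        exact lt_irrefl _ hl
      have h3 := ih (t - 1) (by omega) (by omega) (low f a) (by omega) hlow0 hl
      have hXpos := natDegree_pos_of_M _ hlow0 hl
      have hX' : (0 : ℝ) < (low f a).natDegree := by exact_mod_cast hXpos
      have hXmem : (low f a).natDegree ∈ f.support ∧ (low f a).natDegree < a := by
        have h4 := natDegree_mem_support_of_nonzero hlowne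
        rw [low_support, Finset.mem_filter] at h4
        exact h4
      have hgapX := hgap _ hXmem.1 hXmem.2
      set s : ℝ := 1 / (160 * (low f a).natDegree) with hs
      have hs0 : 0 ≤ s := by positivity
      have h5 := (errors t ht f hc hf hM a hapos hs0).2
      have h6 : Real.exp (35 * t) * Real.exp (-(a * s / (2 * t))) ≤ rho t := by
        apply num_two t ht
        rw [hs]
        rw [mul_one_div, le_div_iff₀ (by positivity)]
        have e1 : (500 * (t : ℝ)) ^ 3 / 160 * (160 * ((low f a).natDegree : ℝ))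
            = (500 * (t : ℝ)) ^ 3 * ((low f a).natDegree : ℝ) := by ring
        rw [e1]
        exact hgapX
      have h7 := rho_step t ht1
      have h8 : mm (cm f) s ≤ mm (cm f) (1 / (160 * f.natDegree)) := by
        apply mm_anti _ (cm_norm_coeff _ hf)
        rw [hs]
        apply one_div_le_one_div_of_le (by positivity)
        have h9 : (low f a).natDegree ≤ f.natDegree := le_natDegree_of_mem_supp _ hXmem.1
        have h10 : ((low f a).natDegree : ℝ) ≤ f.natDegree := by exact_mod_cast h9
        linarith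
      linarith

open N60ffa576 in
theorem sparse (f : ℤ[X]) (hM : 1 < mahlerMeasureZ f) :
    1 / (500 * (f.support.card : ℝ)) ^ (3 * f.support.card) ≤ Real.log (mahlerMeasureZ f) := by
  have hf0 : f ≠ 0 := by
    rintro rfl
    unfold mahlerMeasureZ at hM
    simp at hM
    linarith
  -- remove the power of `X`
  obtain ⟨g, hg⟩ : X ^ f.natTrailingDegree ∣ f := by
    rw [X_pow_dvd_iff]
    intro d hd
    exact coeff_eq_zero_of_lt_natTrailingDegree hd
  set b := f.natTrailingDegree with hb
  have hg0 : g.coeff 0 ≠ 0 := by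
    have h1 : f.coeff b ≠ 0 := by
      have := trailingCoeff_nonzero_iff_nonzero.mpr hf0
      exact this
    rw [hg] at h1
    have h2 := coeff_X_pow_mul g b 0
    rw [zero_add] at h2
    rwa [h2] at h1
  have hcard : f.support.card = g.support.card := by
    rw [hg]
    apply Finset.card_bij' (fun i _ => i - b) (fun i _ => i + b)
    · intro i hi
      rw [mem_support_iff, coeff_X_pow_mul'] at hi
      split_ifs at hi with h
      · exact mem_support_iff.mpr hi
      · exact absurd rfl hi
    · intro i hi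
      rw [mem_support_iff, coeff_X_pow_mul]
      exact mem_support_iff.mp hi
    · intro i hi
      rw [mem_support_iff, coeff_X_pow_mul'] at hi
      split_ifs at hi with h
      · exact Nat.sub_add_cancel h
      · exact absurd rfl hi
    · intro i _
      exact Nat.add_sub_cancel i b
  have hMg : mahlerMeasureZ f = (cm g).mahlerMeasure := by
    unfold mahlerMeasureZ
    rw [hg, Polynomial.map_mul, mahlerMeasure_mul, Polynomial.map_pow, map_X]
    have h1 : (X ^ b : ℂ[X]).mahlerMeasure = 1 := by
      have h2 : (X ^ b : ℂ[X]) = monomial b 1 := by rw [monomial_one_right_eq_X_pow]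
      have h3 : (X ^ b : ℂ[X]) ≠ 0 := pow_ne_zero _ X_ne_zero
      have h4 := logMahlerMeasure_eq_log_MahlerMeasure (p := (X ^ b : ℂ[X]))
      rw [h2, logMahlerMeasure_monomial] at h4
      simp only [norm_one, Real.log_one] at h4
      have h5 := mahlerMeasure_pos_of_ne_zero h3
      rw [h2] at h5 ⊢
      exact Real.eq_one_of_pos_of_log_eq_zero h5 h4.symm
    rw [h1, one_mul]
    rfl
  have hgpos : 0 < g.support.card := by
    rw [Finset.card_pos]
    exact ⟨0, mem_support_iff.mpr hg0⟩
  rw [hcard, hMg]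
  rw [hMg] at hM
  set k := g.support.card with hk
  have hk1 : (1 : ℝ) ≤ k := by exact_mod_cast hgpos
  have hpow1 : (500 : ℝ) ≤ (500 * (k : ℝ)) ^ (3 * k) := by
    calc (500 : ℝ) ≤ (500 * (k : ℝ)) ^ 1 := by rw [pow_one]; nlinarith
      _ ≤ (500 * (k : ℝ)) ^ (3 * k) := pow_le_pow_right₀ (by nlinarith) (by omega)
  rcases lt_trichotomy |g.coeff 0| 1 with h | h | h
  · exact absurd (Int.abs_lt_one_iff.mp h) hg0
  · -- constant coefficient `± 1`
    have hk2 : 1 < k := by
      by_contra hcon
      rw [M_eq_one_of_card g h (by omega)] at hM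
      exact lt_irrefl _ hM
    have h1 := main_ind (k - 1) (by omega) g (by omega) h hM
    have h2 := mm_anti (cm g) (cm_norm_coeff _ h)
      (show (0 : ℝ) ≤ 1 / (160 * g.natDegree) by positivity)
    rw [mm_zero, logMahlerMeasure_eq_log_MahlerMeasure] at h2
    refine le_trans ?_ (h1.trans h2)
    unfold rho
    have h3 : (1 : ℝ) ≤ ((k - 1 : ℕ) : ℝ) := by
      have : 1 ≤ k - 1 := by omega
      exact_mod_cast this
    apply one_div_le_one_div_of_le (by positivity)
    calc (500 * ((k - 1 : ℕ) : ℝ)) ^ (3 * (k - 1))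
        ≤ (500 * (k : ℝ)) ^ (3 * (k - 1)) := by
          apply pow_le_pow_left₀ (by positivity)
          have : ((k - 1 : ℕ) : ℝ) ≤ k := by exact_mod_cast Nat.sub_le k 1
          linarith
      _ ≤ (500 * (k : ℝ)) ^ (3 * k) := pow_le_pow_right₀ (by nlinarith) (by omega)
  · -- constant coefficient of absolute value at least two
    have h1 := norm_coeff_le_choose_mul_mahlerMeasure 0 (cm g)
    rw [Nat.choose_zero_right, Nat.cast_one, one_mul, cm_coeff, Complex.norm_intCast] at h1
    have h2 : (2 : ℝ) ≤ |(g.coeff 0 : ℝ)| := by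
      have : (2 : ℤ) ≤ |g.coeff 0| := h
      exact_mod_cast this
    have h3 : Real.log 2 ≤ Real.log (cm g).mahlerMeasure :=
      Real.log_le_log (by norm_num) (h2.trans h1)
    have h4 := Real.log_two_gt_d9
    have h5 : 1 / (500 * (k : ℝ)) ^ (3 * k) ≤ 1 / 500 :=
      one_div_le_one_div_of_le (by norm_num) hpow1
    linarith

end Pool.Agent.H61.Sparse
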