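import Pool.Agent.H61.Sparse.Compare

/-!
JOB.  `cut_le`, `coeff_sum_le`, `GG_bound`.

`cut_le`: with `r = e^(-s) ≤ 1` apply `compare` to `P = p(rX)`, `h = (q - p)(rX)`, `j = 0`
(`comp_C_mul_X_coeff`: the `i`-th coefficient is multiplied by `r^i`; the support does not change;
`P + h = q(rX)` is nonzero as its constant coefficient has absolute value one);
on the unit circle `|h(z)| ≤ ∑ |(q-p)_i| r^i ≤ L r^a = L e^(-a s)`.
`coeff_sum_le`: each nonzero coefficient is `≤ exp (1 + GG t 1)` by `log_coeff_le`, there are at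
most `t + 1` of them.
`GG_bound`: `GG t (L e^(-a s)) = 2 t (1 + 26 t) L^(1/(2t)) e^(-a s/(2t))`, with
`L = (t+1) exp (1 + GG t 1)`, `GG t 1 = 2 t (1 + 26 t)`:
`L^(1/(2t)) = (t+1)^(1/(2t)) exp (1/(2t) + 1 + 26 t) ≤ 2 exp (2 + 26 t)` (`t + 1 ≤ 2^t`), and
`2 t (1 + 26 t) * 2 * exp (2 + 26 t) ≤ 108 t^2 exp (2 + 26 t) ≤ exp (35 t)`
(`108 ≤ exp 5`, `t^2 ≤ exp (2 t)`: indeed `t ≤ exp t`).
-/

set_option autoImplicit false

namespace Pool.Agent.H61.Sparse

open Polynomial

theorem comp_support_card_le (p : ℂ[X]) (c : ℂ) :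
    (p.comp (C c * X)).support.card ≤ p.support.card := by
  refine Finset.card_le_card ?_
  intro i hi
  rw [mem_support_iff] at hi ⊢
  intro h
  apply hi
  rw [comp_C_mul_X_coeff, h, zero_mul]

theorem cut_le (t : ℕ) (ht : 0 < t) (p q : ℂ[X]) (hp : p.support.card ≤ t + 1)
    (hp0 : ‖p.coeff 0‖ = 1) (hq0 : ‖q.coeff 0‖ = 1) (a : ℕ)
    (ha : ∀ i < a, q.coeff i = p.coeff i) {L : ℝ} (hL : 0 ≤ L)
    (hsum : ((q - p).sum fun _ c => ‖c‖) ≤ L) {s : ℝ} (hs : 0 ≤ s) :
    mm q s ≤ mm p s + GG t (L * Real.exp (-(a * s))) := by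
  set r : ℝ := Real.exp (-s) with hr
  have hr0 : 0 < r := Real.exp_pos _
  have hr1 : r ≤ 1 := by rw [hr]; exact Real.exp_le_one_iff.2 (by linarith)
  set P := p.comp (C (r : ℂ) * X) with hP
  set h := (q - p).comp (C (r : ℂ) * X) with hh
  have hsumP : P + h = q.comp (C (r : ℂ) * X) := by
    rw [hP, hh, sub_comp]; ring
  have h1 : (P + h).logMahlerMeasure ≤ P.logMahlerMeasure + GG t (L * Real.exp (-(a * s))) := by
    refine compare t ht P h ((comp_support_card_le p _).trans hp) 0 ?_ ?_ (by positivity) ?_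
    · rw [hP, comp_C_mul_X_coeff, pow_zero, mul_one, hp0]
    · intro h0
      have h2 : (q.comp (C (r : ℂ) * X)).coeff 0 = 0 := by rw [← hsumP, h0, coeff_zero]
      rw [comp_C_mul_X_coeff, pow_zero, mul_one] at h2
      rw [h2, norm_zero] at hq0
      exact zero_ne_one hq0
    · intro z hz
      have h3 : h.eval z = ∑ i ∈ (q - p).support, (q - p).coeff i * ((r : ℂ) * z) ^ i := by
        rw [hh, eval_comp, eval_mul, eval_C, eval_X, eval_eq_sum, sum_def]
      rw [h3]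
      refine (norm_sum_le _ _).trans ?_
      have h4 : ∀ i ∈ (q - p).support, ‖(q - p).coeff i * ((r : ℂ) * z) ^ i‖ ≤
          ‖(q - p).coeff i‖ * Real.exp (-(a * s)) := by
        intro i hi
        have hia : a ≤ i := by
          by_contra hlt
          rw [mem_support_iff] at hi
          apply hi
          rw [coeff_sub, ha i (not_le.1 hlt), sub_self]
        rw [norm_mul, norm_pow, norm_mul, hz, mul_one, Complex.norm_real, Real.norm_eq_abs,
          abs_of_pos hr0]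
        refine mul_le_mul_of_nonneg_left ?_ (norm_nonneg _)
        have h5 : Real.exp (-(a * s)) = r ^ a := by
          rw [hr, ← Real.exp_nat_mul]
          congr 1
          ring
        rw [h5]
        exact pow_le_pow_of_le_one hr0.le hr1 hia
      refine (Finset.sum_le_sum h4).trans ?_
      rw [← Finset.sum_mul]
      refine mul_le_mul_of_nonneg_right ?_ (Real.exp_pos _).le
      rw [sum_def] at hsum
      exact hsum
  rw [hsumP] at h1
  exact h1

theorem coeff_sum_le (t : ℕ) (ht : 0 < t) (p : ℂ[X]) (hp : p.support.card ≤ t + 1)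
    (hM : p.logMahlerMeasure ≤ 1) :
    (p.sum fun _ c => ‖c‖) ≤ (t + 1) * Real.exp (1 + GG t 1) := by
  rw [sum_def]
  have h1 : ∀ i ∈ p.support, ‖p.coeff i‖ ≤ Real.exp (1 + GG t 1) := by
    intro i hi
    rw [mem_support_iff] at hi
    have h2 := log_coeff_le t ht p hp i hi
    have h3 : 0 < ‖p.coeff i‖ := norm_pos_iff.2 hi
    rw [← Real.log_le_iff_le_exp h3]
    linarith
  refine (Finset.sum_le_sum h1).trans ?_
  rw [Finset.sum_const, nsmul_eq_mul]
  refine mul_le_mul_of_nonneg_right ?_ (Real.exp_pos _).le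
  exact_mod_cast hp

theorem GG_bound (t : ℕ) (ht : 0 < t) (u : ℝ) :
    GG t ((t + 1) * Real.exp (1 + GG t 1) * Real.exp (-u))
      ≤ Real.exp (35 * t) * Real.exp (-(u / (2 * t))) := by
  have ht1 : (1 : ℝ) ≤ t := by exact_mod_cast ht
  have ht0 : (0 : ℝ) < t := by linarith
  have h2t : (0 : ℝ) < 2 * (t : ℝ) := by linarith
  unfold GG
  rw [Real.one_rpow, mul_one]
  set a : ℝ := 1 / (2 * (t : ℝ)) with ha
  have ha0 : 0 < a := by positivity
  have hta : (2 * (t : ℝ)) * a = 1 := by rw [ha]; field_simp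
  rw [Real.mul_rpow (by positivity) (Real.exp_pos _).le, Real.mul_rpow (by positivity)
    (Real.exp_pos _).le, ← Real.exp_mul, ← Real.exp_mul]
  have h1 : ((t : ℝ) + 1) ^ a ≤ 2 := by
    have h2 : ((t : ℝ) + 1) ≤ 2 ^ (2 * (t : ℝ)) := by
      have h3 : (t : ℝ) + 1 ≤ 2 ^ t := by
        have : t + 1 ≤ 2 ^ t := Nat.lt_two_pow_self
        exact_mod_cast this
      have h4 : (2 : ℝ) ^ (2 * (t : ℝ)) = 2 ^ t * 2 ^ t := by
        rw [two_mul, Real.rpow_add (by norm_num), Real.rpow_natCast]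
      rw [h4]
      have h5 : (1 : ℝ) ≤ 2 ^ t := one_le_pow₀ (by norm_num)
      nlinarith
    calc ((t : ℝ) + 1) ^ a ≤ (2 ^ (2 * (t : ℝ))) ^ a :=
          Real.rpow_le_rpow (by positivity) h2 ha0.le
      _ = 2 := by rw [← Real.rpow_mul (by norm_num), hta, Real.rpow_one]
  have h2 : (1 + 2 * (t : ℝ) * (1 + 26 * t)) * a = a + (1 + 26 * t) := by
    calc (1 + 2 * (t : ℝ) * (1 + 26 * t)) * a = a + (2 * t * a) * (1 + 26 * t) := by ring
      _ = _ := by rw [hta, one_mul]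
  have h3 : -u * a = -(u / (2 * t)) := by rw [ha]; ring
  rw [h2, h3]
  have ha1 : a ≤ 1 := by
    rw [ha, div_le_one h2t]; linarith
  have h4 : Real.exp (a + (1 + 26 * t)) ≤ Real.exp (2 + 26 * t) :=
    Real.exp_le_exp.2 (by linarith)
  have h5 : (t : ℝ) ≤ Real.exp t := (Real.add_one_le_exp (t : ℝ)).trans' (by linarith)
  have h6 : (108 : ℝ) ≤ Real.exp 5 := by
    have h7 : Real.exp 5 = Real.exp 1 ^ 5 := by rw [← Real.exp_nat_mul]; norm_num
    rw [h7]
    have h8 : (2.7 : ℝ) ≤ Real.exp 1 := by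
      have := Real.exp_one_gt_d9
      linarith
    calc (108 : ℝ) ≤ 2.7 ^ 5 := by norm_num
      _ ≤ _ := pow_le_pow_left₀ (by norm_num) h8 5
  have h9 : 2 * (t : ℝ) * (1 + 26 * t) ≤ 54 * (t : ℝ) ^ 2 := by nlinarith
  have h10 : (t : ℝ) ^ 2 ≤ Real.exp t ^ 2 := pow_le_pow_left₀ ht0.le h5 2
  have hE : 0 < Real.exp (-(u / (2 * (t : ℝ)))) := Real.exp_pos _
  have key : 2 * (t : ℝ) * (1 + 26 * t) * (((t : ℝ) + 1) ^ a * Real.exp (a + (1 + 26 * t))) ≤
      Real.exp (35 * t) := by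
    have hp1 : 0 ≤ ((t : ℝ) + 1) ^ a := by positivity
    calc 2 * (t : ℝ) * (1 + 26 * t) * (((t : ℝ) + 1) ^ a * Real.exp (a + (1 + 26 * t)))
        ≤ 54 * (t : ℝ) ^ 2 * (2 * Real.exp (2 + 26 * t)) := by
          refine mul_le_mul h9 (mul_le_mul h1 h4 (Real.exp_pos _).le (by norm_num))
            (by positivity) (by positivity)
      _ = 108 * (t : ℝ) ^ 2 * Real.exp (2 + 26 * t) := by ring
      _ ≤ Real.exp 5 * Real.exp t ^ 2 * Real.exp (2 + 26 * t) := by
          refine mul_le_mul_of_nonneg_right ?_ (Real.exp_pos _).le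
          exact mul_le_mul h6 h10 (by positivity) (Real.exp_pos _).le
      _ = Real.exp (5 + (t + t) + (2 + 26 * t)) := by
          simp only [Real.exp_add]; ring
      _ ≤ Real.exp (35 * t) := Real.exp_le_exp.2 (by linarith)
  calc 2 * (t : ℝ) * (1 + 26 * t) * (((t : ℝ) + 1) ^ a * Real.exp (a + (1 + 26 * t)) *
        Real.exp (-(u / (2 * t))))
      = 2 * (t : ℝ) * (1 + 26 * t) * (((t : ℝ) + 1) ^ a * Real.exp (a + (1 + 26 * t))) *
        Real.exp (-(u / (2 * t))) := by ring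
    _ ≤ _ := mul_le_mul_of_nonneg_right key hE.le

end Pool.Agent.H61.Sparse
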