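import Mathlib

/-!
JOB.  `vol_le_of_gaps`: a set of reals, cut by `N` points into pieces of diameter `≤ ℓ`.

Let `S_i` be the set of `x ∈ S` such that exactly `i` elements of `Z` are `< x`, `i = 0, …, N`.
If `x < y` are in `S_i` then no element of `Z` lies in `[x, y)`, and `x, y ∉ Z` (as `Z` does
not meet `S`), so `y - x ≤ ℓ`: the diameter of `S_i` is at most `ℓ`
and `volume S_i ≤ ℓ` (`Real.volume_le_diam`).
-/

set_option autoImplicit false

namespace Pool.Agent.H61.Sparse

open MeasureTheory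

theorem vol_le_of_gaps (S : Set ℝ) (Z : Finset ℝ) (ℓ : ℝ) (hℓ : 0 ≤ ℓ)
    (hZ : ∀ z ∈ Z, z ∉ S)
    (h : ∀ x ∈ S, ∀ y ∈ S, x < y → (∀ z ∈ Z, z < x ∨ y < z) → y - x ≤ ℓ) :
    volume S ≤ ENNReal.ofReal ((Z.card + 1) * ℓ) := by
  classical
  let T : ℕ → Set ℝ := fun i => {x | x ∈ S ∧ (Z.filter (fun z => z < x)).card = i}
  have hsub : S ⊆ ⋃ i ∈ Finset.range (Z.card + 1), T i := by
    intro x hx
    simp only [Set.mem_iUnion]
    refine ⟨(Z.filter (fun z => z < x)).card, ?_, hx, rfl⟩
    rw [Finset.mem_range]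
    have := Finset.card_filter_le Z (fun z => z < x)
    omega
  have key : ∀ i, ∀ x ∈ T i, ∀ y ∈ T i, x < y → y - x ≤ ℓ := by
    intro i x hx y hy hxy
    apply h x hx.1 y hy.1 hxy
    intro z hz
    by_contra hcon
    push Not at hcon
    obtain ⟨h1, h2⟩ := hcon
    have h3 : z < y := lt_of_le_of_ne h2 (fun h3 => hZ z hz (h3 ▸ hy.1))
    have h4 : Z.filter (fun z => z < x) ⊆ Z.filter (fun z => z < y) := by
      intro w hw
      rw [Finset.mem_filter] at hw ⊢
      exact ⟨hw.1, hw.2.trans hxy⟩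
    have h5 := Finset.eq_of_subset_of_card_le h4 (by rw [hx.2, hy.2])
    have h6 : z ∈ Z.filter (fun z => z < x) := by
      rw [h5, Finset.mem_filter]
      exact ⟨hz, h3⟩
    rw [Finset.mem_filter] at h6
    linarith [h6.2]
  have hdiam : ∀ i, volume (T i) ≤ ENNReal.ofReal ℓ := by
    intro i
    refine (Real.volume_le_diam _).trans ?_
    apply Metric.ediam_le
    intro x hx y hy
    rw [edist_dist, Real.dist_eq]
    apply ENNReal.ofReal_le_ofReal
    rcases lt_trichotomy x y with h1 | h1 | h1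
    · rw [abs_sub_comm, abs_of_pos (by linarith)]
      exact key i x hx y hy h1
    · rw [h1, sub_self, abs_zero]
      exact hℓ
    · rw [abs_of_pos (by linarith)]
      exact key i y hy x hx h1
  calc volume S ≤ volume (⋃ i ∈ Finset.range (Z.card + 1), T i) := measure_mono hsub
    _ ≤ ∑ i ∈ Finset.range (Z.card + 1), volume (T i) := measure_biUnion_finset_le _ _
    _ ≤ ∑ i ∈ Finset.range (Z.card + 1), ENNReal.ofReal ℓ := Finset.sum_le_sum fun i _ => hdiam i
    _ = ENNReal.ofReal ((Z.card + 1) * ℓ) := by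
      rw [Finset.sum_const, Finset.card_range, nsmul_eq_mul, ENNReal.ofReal_mul (by positivity)]
      congr 1
      rw [show ((Z.card : ℝ) + 1) = ((Z.card + 1 : ℕ) : ℝ) by push_cast; ring,
        ENNReal.ofReal_natCast]

end Pool.Agent.H61.Sparse
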