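import Pool.Agent.H61.Sparse.Defs

/-!
JOB.  The function `mm f s` through the roots, for `|f(0)| = 1`.

`mm_eq`: the polynomial `f(rX)`, `r = e^(-s)`, has leading coefficient `a r^n` and roots `z / r`
(or write `f = C a * ∏ (X - C z)`, so `f(rX) = C (a r^n) * ∏ (X - C (z / r))`); by
`logMahlerMeasure_eq_log_leadingCoeff_add_sum_log_roots`
`mm f s = log |a| - n s + ∑ log⁺ (|z| e^s)`, and `log |a| = - ∑ log |z|` because `|f(0)| = 1`
(no root is zero, `|a| ∏ |z| = |f(0)|`), the number of roots is `n`.
The other statements follow from `mm_eq` (`mm_zero` directly: `f.comp (C 1 * X) = f`).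
-/

set_option autoImplicit false

namespace Pool.Agent.H61.Sparse

open Polynomial

theorem roots_log_prod (S : Multiset ℂ) (h : ∀ z ∈ S, z ≠ 0) :
    Real.log ‖(S.map fun z => -z).prod‖ = (S.map fun z => Real.log ‖z‖).sum ∧
      (S.map fun z => -z).prod ≠ 0 := by
  induction S using Multiset.induction_on with
  | empty => simp
  | cons a S ih =>
    have ha : a ≠ 0 := h a (Multiset.mem_cons_self a S)
    obtain ⟨ih1, ih2⟩ := ih fun z hz => h z (Multiset.mem_cons_of_mem hz)
    simp only [Multiset.map_cons, Multiset.prod_cons, Multiset.sum_cons]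
    refine ⟨?_, mul_ne_zero (neg_ne_zero.2 ha) ih2⟩
    rw [norm_mul, Real.log_mul (by simpa using ha) (by simpa using ih2), ih1, norm_neg]

theorem mm_eq (f : ℂ[X]) (hf : ‖f.coeff 0‖ = 1) (s : ℝ) :
    mm f s = (f.roots.map fun z => max 0 (-Real.log ‖z‖ - s)).sum := by
  have hf0 : f.coeff 0 ≠ 0 := by
    intro h
    rw [h, norm_zero] at hf
    exact zero_ne_one hf
  have hfne : f ≠ 0 := by
    rintro rfl
    exact hf0 rfl
  set r : ℂ := ((Real.exp (-s) : ℝ) : ℂ) with hr
  have hrpos : 0 < Real.exp (-s) := Real.exp_pos _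
  have hr0 : r ≠ 0 := by
    rw [hr]
    exact_mod_cast hrpos.ne'
  have hrn : ‖r‖ = Real.exp (-s) := by
    rw [hr, Complex.norm_real, Real.norm_of_nonneg hrpos.le]
  have hroot0 : ∀ z ∈ f.roots, z ≠ 0 := by
    rintro z hz rfl
    have h1 : f.eval 0 = 0 := (Polynomial.mem_roots hfne).1 hz
    rw [← Polynomial.coeff_zero_eq_eval_zero] at h1
    exact hf0 h1
  have hlead : f.leadingCoeff ≠ 0 := Polynomial.leadingCoeff_ne_zero.2 hfne
  -- the constant term
  have hconst : Real.log ‖f.leadingCoeff‖ + (f.roots.map fun z => Real.log ‖z‖).sum = 0 := by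
    have h1 : f.coeff 0 = f.leadingCoeff * (f.roots.map fun z => -z).prod := by
      conv_lhs => rw [(IsAlgClosed.splits f).eq_prod_roots]
      rw [Polynomial.coeff_zero_eq_eval_zero, Polynomial.eval_mul, Polynomial.eval_C,
        Polynomial.eval_multiset_prod, Multiset.map_map]
      congr 2
      refine Multiset.map_congr rfl fun z _ => ?_
      simp
    obtain ⟨h2, h3⟩ := roots_log_prod f.roots hroot0
    have h4 := congrArg (fun w : ℂ => Real.log ‖w‖) h1
    simp only [hf, Real.log_one] at h4
    rw [norm_mul, Real.log_mul (by simpa using hlead) (by simpa using h3), h2] at h4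
    exact h4.symm
  -- the roots of `f (r X)`
  have hnd : (C r * X : ℂ[X]).natDegree = 1 := by
    rw [Polynomial.natDegree_C_mul_X r hr0]
  have hl : (f.comp (C r * X)).leadingCoeff = f.leadingCoeff * r ^ f.natDegree := by
    rw [Polynomial.leadingCoeff_comp (by rw [hnd]; exact one_ne_zero)]
    simp
  have hroots : (f.comp (C r * X)).roots = f.roots.map fun z => z / r := by
    have h1 := Polynomial.roots_comp_C_mul_X_add_C f r 0 (isUnit_iff_ne_zero.2 hr0)
    rw [C_0, add_zero] at h1
    rw [h1]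
    refine Multiset.map_congr rfl fun z _ => ?_
    simp [div_eq_inv_mul]
  unfold mm
  rw [← hr, logMahlerMeasure_eq_log_leadingCoeff_add_sum_log_roots, hl, hroots, Multiset.map_map,
    norm_mul, norm_pow, hrn, Real.log_mul (by simpa using hlead) (pow_ne_zero _ hrpos.ne'),
    Real.log_pow, Real.log_exp]
  have hcard : (f.natDegree : ℝ) = (f.roots.map fun _ => (1 : ℝ)).sum := by
    rw [(IsAlgClosed.splits f).natDegree_eq_card_roots]
    simp
  have h5 : Real.log ‖f.leadingCoeff‖ = -(f.roots.map fun z => Real.log ‖z‖).sum := by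
    linarith
  rw [h5, hcard]
  have h6 : ∀ S : Multiset ℂ, (∀ z ∈ S, z ≠ 0) →
      -(S.map fun z => Real.log ‖z‖).sum + (S.map fun _ => (1 : ℝ)).sum * -s +
        (S.map ((fun a => Real.posLog ‖a‖) ∘ fun z => z / r)).sum =
      (S.map fun z => max 0 (-Real.log ‖z‖ - s)).sum := by
    intro S
    induction S using Multiset.induction_on with
    | empty => simp
    | cons a S ih =>
      intro hS
      have ha : a ≠ 0 := hS a (Multiset.mem_cons_self a S)
      have ih' := ih fun z hz => hS z (Multiset.mem_cons_of_mem hz)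
      simp only [Multiset.map_cons, Multiset.sum_cons, Function.comp_apply] at ih' ⊢
      rw [← ih']
      have h7 : Real.posLog ‖a / r‖ = max 0 (Real.log ‖a‖ + s) := by
        rw [norm_div, hrn, Real.posLog, Real.log_div (by simpa using ha) hrpos.ne', Real.log_exp]
        congr 1
        ring
      have h8 : max 0 (-Real.log ‖a‖ - s) = max 0 (Real.log ‖a‖ + s) - (Real.log ‖a‖ + s) := by
        rcases le_total 0 (Real.log ‖a‖ + s) with h | h
        · rw [max_eq_right h, max_eq_left (by linarith)]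
          ring
        · rw [max_eq_left h, max_eq_right (by linarith)]
          ring
      rw [h7, h8]
      ring
  exact h6 f.roots hroot0

theorem mm_zero (f : ℂ[X]) : mm f 0 = f.logMahlerMeasure := by
  unfold mm
  simp

theorem mm_nonneg (f : ℂ[X]) (hf : ‖f.coeff 0‖ = 1) (s : ℝ) : 0 ≤ mm f s := by
  rw [mm_eq f hf]
  refine Multiset.sum_nonneg fun x hx => ?_
  obtain ⟨z, _, rfl⟩ := Multiset.mem_map.1 hx
  exact le_max_left _ _

theorem mm_anti (f : ℂ[X]) (hf : ‖f.coeff 0‖ = 1) {s s' : ℝ} (h : s ≤ s') : mm f s' ≤ mm f s := by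
  rw [mm_eq f hf, mm_eq f hf]
  refine Multiset.sum_map_le_sum_map _ _ fun z _ => ?_
  exact max_le_max le_rfl (by linarith)

theorem mm_lip (f : ℂ[X]) (hf : ‖f.coeff 0‖ = 1) {s s' : ℝ} (h : s ≤ s') :
    mm f s ≤ mm f s' + f.natDegree * (s' - s) := by
  rw [mm_eq f hf, mm_eq f hf]
  have hcard : (f.natDegree : ℝ) * (s' - s) = (f.roots.map fun _ => (s' - s)).sum := by
    rw [(IsAlgClosed.splits f).natDegree_eq_card_roots]
    simp
  rw [hcard, ← Multiset.sum_map_add]
  refine Multiset.sum_map_le_sum_map _ _ fun z _ => ?_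
  refine max_le (add_nonneg (le_max_left _ _) (by linarith)) ?_
  have h1 := le_max_right 0 (-Real.log ‖z‖ - s')
  linarith

end Pool.Agent.H61.Sparse
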