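import Pool.Agent.H61.Sparse.TrigStep

/-!
`sublevel`: Lawton's sublevel estimate, by induction on `t` from `step`.

`η = 0` or `c_j = 0`: the set is empty.  `η ≥ 1`: the bound exceeds `2π`.
Let `0 < η < 1`, `c_j ≠ 0`.
Reductions: the conjugate reciprocal polynomial `rr P = (P.map conj).reverse` has the same absolute
values at `|w| = 1`, the same number of coefficients and nonzero constant coefficient; apply `rr`
once or twice to get `P(0) ≠ 0` and `2 j ≥ n = deg P`.
Let `Q = C (1/n) * X * P'`; its support is contained in the support of `P` without `0` and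
`|Q_j| = (j/n) |c_j| ≥ |c_j|/2`.
`t = 1`: `Q` is a monomial, `|Q| = |Q_j| ≥ |c_j|/2` on the circle; `step` with `x = η |c_j|`,
`y = |c_j|/2` gives `160 η`.
`t ≥ 2`: let `η' = η^((t-1)/t) / 2`.  The set is contained in the union of
`{|Q| < η' |c_j|} ⊆ {|Q| < 2 η' |Q_j|}`, of measure `≤ 160 (t-1) (2η')^(1/(t-1)) = 160 (t-1) η^(1/t)`,
and of `{|P| < η |c_j|, |X P'| ≥ n η' |c_j|}`, of measure `≤ 80 η / η' = 160 η^(1/t)`.
-/

set_option autoImplicit false

namespace Pool.Agent.H61.Sparse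

open Polynomial MeasureTheory

/-- conjugate reciprocal polynomial -/
noncomputable def rr (P : ℂ[X]) : ℂ[X] := (P.map (starRingEnd ℂ)).reverse

theorem natDegree_map_conj (P : ℂ[X]) :
    (P.map (starRingEnd ℂ)).natDegree = P.natDegree :=
  natDegree_map_eq_of_injective (starRingEnd ℂ).injective P

theorem norm_eval_rr (P : ℂ[X]) {w : ℂ} (hw : ‖w‖ = 1) :
    ‖(rr P).eval w‖ = ‖P.eval w‖ := by
  have hw0 : w ≠ 0 := by
    intro h
    rw [h, norm_zero] at hw
    exact zero_ne_one hw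
  have hinv : w⁻¹ = (starRingEnd ℂ) w := Complex.inv_eq_conj hw
  let _ : Invertible w⁻¹ := invertibleOfNonzero (inv_ne_zero hw0)
  have h := eval₂_reverse_mul_pow (RingHom.id ℂ) w⁻¹ (P.map (starRingEnd ℂ))
  have hi : ⅟(w⁻¹) = w := by rw [invOf_eq_inv, inv_inv]
  rw [hi] at h
  have h2 : ‖eval₂ (RingHom.id ℂ) w (P.map (starRingEnd ℂ)).reverse‖
      = ‖eval₂ (RingHom.id ℂ) w⁻¹ (P.map (starRingEnd ℂ))‖ := by
    rw [← h, norm_mul, norm_pow, norm_inv, hw, inv_one, one_pow, mul_one]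
  have h3 : eval₂ (RingHom.id ℂ) w⁻¹ (P.map (starRingEnd ℂ)) = (starRingEnd ℂ) (P.eval w) := by
    change eval w⁻¹ (P.map (starRingEnd ℂ)) = _
    rw [eval_map, hinv, eval₂_at_apply]
  rw [h3, RCLike.norm_conj] at h2
  exact h2

theorem coeff_rr (P : ℂ[X]) (j : ℕ) :
    (rr P).coeff j = (starRingEnd ℂ) (P.coeff (revAt P.natDegree j)) := by
  rw [rr, coeff_reverse, natDegree_map_conj, coeff_map]

theorem natDegree_rr_le (P : ℂ[X]) : (rr P).natDegree ≤ P.natDegree := by
  rw [← natDegree_map_conj P]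
  exact reverse_natDegree_le _

theorem coeff_zero_rr (P : ℂ[X]) (hP : P ≠ 0) : (rr P).coeff 0 ≠ 0 := by
  rw [coeff_rr, revAt_le (Nat.zero_le _), Nat.sub_zero]
  intro h
  exact hP (leadingCoeff_eq_zero.mp ((map_eq_zero _).mp h))

theorem card_support_rr (P : ℂ[X]) : (rr P).support.card = P.support.card := by
  have h1 : (P.map (starRingEnd ℂ)).support = P.support :=
    support_map_of_injective P (starRingEnd ℂ).injective
  rw [rr, reverse, reflect_support, Finset.card_image_of_injective _ (revAt _).injective, h1]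

theorem natDegree_rr (P : ℂ[X]) (hP : P.coeff 0 ≠ 0) : (rr P).natDegree = P.natDegree := by
  apply le_antisymm (natDegree_rr_le P)
  apply le_natDegree_of_ne_zero
  rw [coeff_rr, revAt_le le_rfl, Nat.sub_self]
  exact (_root_.map_ne_zero _).mpr hP

/-- reduction to `P(0) ≠ 0`, `2 j ≥ deg P` -/
theorem reduce (P : ℂ[X]) (j : ℕ) (hj : P.coeff j ≠ 0) :
    ∃ (P' : ℂ[X]) (j' : ℕ), P'.coeff 0 ≠ 0 ∧ P'.natDegree ≤ 2 * j' ∧
      P'.support.card = P.support.card ∧ ‖P'.coeff j'‖ = ‖P.coeff j‖ ∧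
      ∀ w : ℂ, ‖w‖ = 1 → ‖P'.eval w‖ = ‖P.eval w‖ := by
  have hP : P ≠ 0 := by
    intro h
    rw [h, coeff_zero] at hj
    exact hj rfl
  have hjn : j ≤ P.natDegree := le_natDegree_of_ne_zero hj
  have hc : ‖(rr P).coeff (P.natDegree - j)‖ = ‖P.coeff j‖ := by
    rw [coeff_rr, revAt_le (Nat.sub_le _ _), Nat.sub_sub_self hjn, RCLike.norm_conj]
  have hr0 := coeff_zero_rr P hP
  have hrne : rr P ≠ 0 := by
    intro h
    rw [h, coeff_zero] at hr0
    exact hr0 rfl
  by_cases h : (rr P).natDegree ≤ 2 * (P.natDegree - j)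
  · exact ⟨rr P, P.natDegree - j, hr0, h, card_support_rr P, hc, fun w hw => norm_eval_rr P hw⟩
  · push Not at h
    have hle : P.natDegree - j ≤ (rr P).natDegree := by omega
    refine ⟨rr (rr P), (rr P).natDegree - (P.natDegree - j), coeff_zero_rr _ hrne, ?_, ?_, ?_, ?_⟩
    · rw [natDegree_rr _ hr0]
      omega
    · rw [card_support_rr, card_support_rr]
    · rw [coeff_rr, revAt_le (Nat.sub_le _ _), Nat.sub_sub_self hle, RCLike.norm_conj, hc]
    · intro w hw
      rw [norm_eval_rr _ hw, norm_eval_rr _ hw]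

theorem norm_circleMap_one (θ : ℝ) : ‖circleMap 0 1 θ‖ = 1 := by
  rw [norm_circleMap_zero, abs_one]

/-- the polynomial `X P' / n` -/
noncomputable def qq (P : ℂ[X]) : ℂ[X] := C ((P.natDegree : ℂ)⁻¹) * (X * derivative P)

theorem coeff_X_mul_derivative (P : ℂ[X]) (j : ℕ) :
    (X * derivative P).coeff j = P.coeff j * j := by
  cases j with
  | zero => simp
  | succ j =>
    rw [coeff_X_mul, coeff_derivative]
    push_cast
    ring

theorem coeff_qq (P : ℂ[X]) (j : ℕ) :
    (qq P).coeff j = (P.natDegree : ℂ)⁻¹ * (P.coeff j * j) := by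
  rw [qq, coeff_C_mul, coeff_X_mul_derivative]

theorem support_qq (P : ℂ[X]) : (qq P).support ⊆ P.support.erase 0 := by
  intro j hj
  rw [mem_support_iff, coeff_qq] at hj
  rw [Finset.mem_erase, mem_support_iff]
  refine ⟨?_, ?_⟩
  · intro h
    rw [h] at hj
    simp at hj
  · intro h
    rw [h] at hj
    simp at hj

theorem card_support_qq (P : ℂ[X]) (hP : P.coeff 0 ≠ 0) {t : ℕ} (ht : P.support.card ≤ t + 1) :
    (qq P).support.card ≤ t := by
  have h1 := Finset.card_le_card (support_qq P)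
  have h2 : (P.support.erase 0).card = P.support.card - 1 :=
    Finset.card_erase_of_mem (mem_support_iff.mpr hP)
  omega

theorem norm_coeff_qq (P : ℂ[X]) (j : ℕ) (hn : 0 < P.natDegree) (hj : P.natDegree ≤ 2 * j) :
    ‖P.coeff j‖ ≤ 2 * ‖(qq P).coeff j‖ := by
  rw [coeff_qq, norm_mul, norm_mul, norm_inv, Complex.norm_natCast, Complex.norm_natCast]
  have hn' : (0 : ℝ) < P.natDegree := by exact_mod_cast hn
  have hj' : (P.natDegree : ℝ) ≤ 2 * j := by exact_mod_cast hj
  have h1 : 1 ≤ 2 * ((P.natDegree : ℝ)⁻¹ * j) := by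
    rw [← mul_assoc, mul_comm 2, mul_assoc, ← div_eq_inv_mul, le_div_iff₀ hn']
    linarith
  calc ‖P.coeff j‖ = ‖P.coeff j‖ * 1 := (mul_one _).symm
    _ ≤ ‖P.coeff j‖ * (2 * ((P.natDegree : ℝ)⁻¹ * j)) :=
        mul_le_mul_of_nonneg_left h1 (norm_nonneg _)
    _ = _ := by ring

theorem norm_eval_qq (P : ℂ[X]) (hn : 0 < P.natDegree) (w : ℂ) :
    ‖(X * derivative P).eval w‖ = P.natDegree * ‖(qq P).eval w‖ := by
  have hn' : (P.natDegree : ℂ) ≠ 0 := by exact_mod_cast hn.ne'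
  have h : (X * derivative P).eval w = P.natDegree * (qq P).eval w := by
    rw [qq, eval_mul (p := C _), eval_C, ← mul_assoc, mul_inv_cancel₀ hn', one_mul]
  rw [h, norm_mul, Complex.norm_natCast]

/-- the sublevel set -/
def SL (P : ℂ[X]) (r : ℝ) : Set ℝ :=
  {θ : ℝ | θ ∈ Set.Icc 0 (2 * Real.pi) ∧ ‖P.eval (circleMap 0 1 θ)‖ < r}

/-- the estimate for `t` -/
def Est (t : ℕ) : Prop :=
  ∀ (P : ℂ[X]), P.support.card ≤ t + 1 → ∀ (j : ℕ) (η : ℝ), 0 ≤ η →
    volume (SL P (η * ‖P.coeff j‖)) ≤ ENNReal.ofReal (160 * t * η ^ (1 / (t : ℝ)))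

/-- it is enough to treat the main case -/
theorem est_of_main {t : ℕ} (ht : 0 < t)
    (H : ∀ (P : ℂ[X]), P.support.card ≤ t + 1 → ∀ (j : ℕ) (η : ℝ), 0 < η → η < 1 →
      P.coeff 0 ≠ 0 → 0 < P.natDegree → P.natDegree ≤ 2 * j → P.coeff j ≠ 0 →
      volume (SL P (η * ‖P.coeff j‖)) ≤ ENNReal.ofReal (160 * t * η ^ (1 / (t : ℝ)))) :
    Est t := by
  intro P hP j η hη
  have ht1 : (1 : ℝ) ≤ t := by exact_mod_cast ht
  have hempty : ∀ (P : ℂ[X]) (r : ℝ), r ≤ 0 → SL P r = ∅ := by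
    intro P r hr
    ext θ
    simp only [SL, Set.mem_ofPred_eq, Set.mem_empty_iff_false, iff_false, not_and, not_lt]
    intro _
    exact hr.trans (norm_nonneg _)
  by_cases hj : P.coeff j = 0
  · rw [hj, norm_zero, mul_zero, hempty P 0 le_rfl, measure_empty]
    exact bot_le
  rcases hη.eq_or_lt with h0 | h0
  · rw [← h0, zero_mul, hempty P 0 le_rfl, measure_empty]
    exact bot_le
  by_cases h1 : η < 1
  · obtain ⟨P', j', hc0, hd, hcard, hcj, hev⟩ := reduce P j hj
    have hset : SL P (η * ‖P.coeff j‖) = SL P' (η * ‖P'.coeff j'‖) := by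
      ext θ
      simp only [SL, Set.mem_ofPred_eq]
      rw [hcj, hev _ (norm_circleMap_one θ)]
    have hj' : P'.coeff j' ≠ 0 := by
      rw [← norm_ne_zero_iff, hcj, norm_ne_zero_iff]
      exact hj
    rw [hset]
    by_cases hn : 0 < P'.natDegree
    · exact H P' (by rw [hcard]; exact hP) j' η h0 h1 hc0 hn hd hj'
    · have hn0 : P'.natDegree = 0 := by omega
      have hjz : j' = 0 := by
        have := le_natDegree_of_ne_zero hj'
        omega
      obtain hPc := eq_C_of_natDegree_eq_zero hn0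
      have hE : SL P' (η * ‖P'.coeff j'‖) = ∅ := by
        ext θ
        simp only [SL, Set.mem_ofPred_eq, Set.mem_empty_iff_false, iff_false, not_and, not_lt]
        intro _
        rw [hjz]
        have he : P'.eval (circleMap 0 1 θ) = P'.coeff 0 := by
          conv_lhs => rw [hPc]
          rw [eval_C]
        rw [he]
        calc η * ‖P'.coeff 0‖ ≤ 1 * ‖P'.coeff 0‖ :=
              mul_le_mul_of_nonneg_right h1.le (norm_nonneg _)
          _ = _ := one_mul _
      rw [hE, measure_empty]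
      exact bot_le
  · push Not at h1
    calc volume (SL P (η * ‖P.coeff j‖)) ≤ volume (Set.Icc 0 (2 * Real.pi)) :=
          measure_mono (fun θ hθ => hθ.1)
      _ = ENNReal.ofReal (2 * Real.pi) := by rw [Real.volume_Icc, sub_zero]
      _ ≤ _ := by
        apply ENNReal.ofReal_le_ofReal
        have h2 : (1 : ℝ) ≤ η ^ (1 / (t : ℝ)) := Real.one_le_rpow h1 (by positivity)
        have h3 : (1 : ℝ) * 1 ≤ t * η ^ (1 / (t : ℝ)) :=
          mul_le_mul ht1 h2 zero_le_one (by linarith)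
        have := Real.pi_lt_four
        nlinarith

theorem est_one : Est 1 := by
  apply est_of_main one_pos
  intro P hP j η h0 h1 hc0 hn hd hj
  have hcard := card_support_qq P hc0 hP
  obtain ⟨m, a, hma⟩ := card_support_le_one_iff_monomial.mp hcard
  have hcn := norm_coeff_qq P j hn hd
  have hcpos : 0 < ‖P.coeff j‖ := norm_pos_iff.mpr hj
  have hqj : (qq P).coeff j ≠ 0 := by
    intro h
    rw [h, norm_zero] at hcn
    linarith
  have hmj : m = j := by
    by_contra hne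
    apply hqj
    rw [hma, coeff_monomial, if_neg hne]
  have hqa : (qq P).coeff j = a := by
    rw [hma, coeff_monomial, if_pos hmj]
  have hev : ∀ θ : ℝ, ‖(qq P).eval (circleMap 0 1 θ)‖ = ‖(qq P).coeff j‖ := by
    intro θ
    rw [hqa, hma, eval_monomial, norm_mul, norm_pow, norm_circleMap_one, one_pow, mul_one]
  have hsub : SL P (η * ‖P.coeff j‖) ⊆
      {θ : ℝ | θ ∈ Set.Icc 0 (2 * Real.pi) ∧ ‖P.eval (circleMap 0 1 θ)‖ < η * ‖P.coeff j‖ ∧
      P.natDegree * (‖P.coeff j‖ / 2) ≤ ‖(X * derivative P).eval (circleMap 0 1 θ)‖} := by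
    intro θ hθ
    refine ⟨hθ.1, hθ.2, ?_⟩
    rw [norm_eval_qq P hn, hev]
    apply mul_le_mul_of_nonneg_left _ (Nat.cast_nonneg _)
    linarith
  calc volume (SL P (η * ‖P.coeff j‖)) ≤ _ := measure_mono hsub
    _ ≤ ENNReal.ofReal (80 * (η * ‖P.coeff j‖) / (‖P.coeff j‖ / 2)) :=
        step P P.natDegree hn le_rfl (mul_pos h0 hcpos) (half_pos hcpos)
    _ ≤ _ := by
        apply ENNReal.ofReal_le_ofReal
        apply le_of_eq
        rw [Nat.cast_one, div_one, Real.rpow_one]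
        field_simp
        norm_num

theorem est_succ {t : ℕ} (ht : 0 < t) (IH : Est t) : Est (t + 1) := by
  apply est_of_main (Nat.succ_pos t)
  intro P hP j η h0 h1 hc0 hn hd hj
  have hcard := card_support_qq P hc0 hP
  have hcn := norm_coeff_qq P j hn hd
  have hcpos : 0 < ‖P.coeff j‖ := norm_pos_iff.mpr hj
  have ht' : (0 : ℝ) < t := by exact_mod_cast ht
  set β : ℝ := η ^ ((t : ℝ) / (t + 1)) with hβ
  have hβpos : 0 < β := Real.rpow_pos_of_pos h0 _
  have hsub : SL P (η * ‖P.coeff j‖) ⊆ SL (qq P) (β * ‖(qq P).coeff j‖) ∪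
      {θ : ℝ | θ ∈ Set.Icc 0 (2 * Real.pi) ∧ ‖P.eval (circleMap 0 1 θ)‖ < η * ‖P.coeff j‖ ∧
      P.natDegree * (β / 2 * ‖P.coeff j‖) ≤ ‖(X * derivative P).eval (circleMap 0 1 θ)‖} := by
    intro θ hθ
    by_cases hq : ‖(qq P).eval (circleMap 0 1 θ)‖ < β / 2 * ‖P.coeff j‖
    · left
      refine ⟨hθ.1, hq.trans_le ?_⟩
      calc β / 2 * ‖P.coeff j‖ ≤ β / 2 * (2 * ‖(qq P).coeff j‖) :=
            mul_le_mul_of_nonneg_left hcn (by positivity)
        _ = _ := by ring
    · right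
      push Not at hq
      refine ⟨hθ.1, hθ.2, ?_⟩
      rw [norm_eval_qq P hn]
      exact mul_le_mul_of_nonneg_left hq (Nat.cast_nonneg _)
  have hA := IH (qq P) hcard j β hβpos.le
  have hB := step P P.natDegree hn le_rfl (x := η * ‖P.coeff j‖) (y := β / 2 * ‖P.coeff j‖)
    (mul_pos h0 hcpos) (by positivity)
  have hβ1 : β ^ (1 / (t : ℝ)) = η ^ (1 / ((t : ℝ) + 1)) := by
    rw [hβ, ← Real.rpow_mul h0.le]
    congr 1
    field_simp
  have hβ2 : η / β = η ^ (1 / ((t : ℝ) + 1)) := by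
    have : η / β = η ^ (1 : ℝ) / η ^ ((t : ℝ) / (t + 1)) := by rw [Real.rpow_one]
    rw [this, ← Real.rpow_sub h0]
    congr 1
    field_simp
    ring
  have hB2 : 80 * (η * ‖P.coeff j‖) / (β / 2 * ‖P.coeff j‖) = 160 * (η / β) := by
    field_simp
    norm_num
  calc volume (SL P (η * ‖P.coeff j‖)) ≤ _ := measure_mono hsub
    _ ≤ _ := measure_union_le _ _
    _ ≤ ENNReal.ofReal (160 * t * β ^ (1 / (t : ℝ)))
        + ENNReal.ofReal (80 * (η * ‖P.coeff j‖) / (β / 2 * ‖P.coeff j‖)) := add_le_add hA hB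
    _ = ENNReal.ofReal (160 * t * β ^ (1 / (t : ℝ))
        + 80 * (η * ‖P.coeff j‖) / (β / 2 * ‖P.coeff j‖)) := by
        rw [ENNReal.ofReal_add (by positivity) (by positivity)]
    _ = _ := by
        congr 1
        rw [hβ1, hB2, hβ2]
        push_cast
        ring

theorem est_all (t : ℕ) (ht : 0 < t) : Est t := by
  induction t, ht using Nat.le_induction with
  | base => exact est_one
  | succ n hn ih => exact est_succ hn ih

theorem sublevel (t : ℕ) (ht : 0 < t) (P : ℂ[X]) (hP : P.support.card ≤ t + 1) (j : ℕ) {η : ℝ}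
    (hη : 0 ≤ η) :
    volume {θ : ℝ | θ ∈ Set.Icc 0 (2 * Real.pi) ∧
      ‖P.eval (circleMap 0 1 θ)‖ < η * ‖P.coeff j‖}
      ≤ ENNReal.ofReal (160 * t * η ^ (1 / (t : ℝ))) :=
  est_all t ht P hP j η hη

end Pool.Agent.H61.Sparse
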