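import Mathlib

/-!
JOB.  `trig_zeros`: a real trigonometric polynomial `Re R(e^(iθ))` of degree `≤ n` takes the values
`± c` at most `4 n` times in `[0, 2π)`, unless its absolute value is constantly `c`.

Put `w = e^(iθ)`, `U = (X^n R + R♯)/2` with `R♯ = ∑_j conj(r_j) X^(n-j)` (for instance
`(R.map (starRingEnd ℂ)).reflect n`); then `w^n Re R(w) = U(w)` as `conj (R(w)) = ∑ conj(r_j) w^(-j)`.
So `w^(2n) ((Re R(w))^2 - c^2) = Q(w)`, `Q = U^2 - C (c^2) X^(2n)`, degree `≤ 4 n`.
If `Q = 0` the first alternative holds.  Otherwise `θ ↦ circleMap 0 1 θ` is injective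
on `[0, 2π)` (`injOn_circleMap_of_abs_sub_le'` or similar) and maps the solutions into `Q.roots`.
-/

set_option autoImplicit false

namespace Pool.Agent.H61.Sparse

open Polynomial

private theorem eval_reflect_conj (R : ℂ[X]) (n : ℕ) (hR : R.natDegree ≤ n) (w : ℂ)
    (hw : ‖w‖ = 1) :
    ((R.map (starRingEnd ℂ)).reflect n).eval w = w ^ n * (starRingEnd ℂ) (R.eval w) := by
  have hw0 : w ≠ 0 := by
    intro h; rw [h, norm_zero] at hw; exact zero_ne_one hw
  have hconj : (starRingEnd ℂ) w = w⁻¹ := by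
    refine eq_inv_of_mul_eq_one_right ?_
    rw [Complex.mul_conj, Complex.normSq_eq_norm_sq, hw]; simp
  have hdeg : (R.map (starRingEnd ℂ)).natDegree ≤ n := le_trans (natDegree_map_le) hR
  haveI : Invertible (w⁻¹) := invertibleOfNonzero (inv_ne_zero hw0)
  have h := eval₂_reflect_mul_pow (RingHom.id ℂ) (w⁻¹) n (R.map (starRingEnd ℂ)) hdeg
  rw [invOf_eq_inv, inv_inv] at h
  have h1 : eval₂ (RingHom.id ℂ) w ((R.map (starRingEnd ℂ)).reflect n) =
      ((R.map (starRingEnd ℂ)).reflect n).eval w := rfl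
  have h2 : eval₂ (RingHom.id ℂ) w⁻¹ (R.map (starRingEnd ℂ)) =
      (starRingEnd ℂ) (R.eval w) := by
    rw [← hconj]
    change eval _ _ = _
    rw [eval_map_apply]
  rw [h1, h2] at h
  rw [← h, inv_pow, mul_comm (w ^ n), mul_assoc, inv_mul_cancel₀ (pow_ne_zero _ hw0), mul_one]

theorem trig_zeros (R : ℂ[X]) (n : ℕ) (hR : R.natDegree ≤ n) (c : ℝ) :
    (∀ θ : ℝ, |(R.eval (circleMap 0 1 θ)).re| = |c|) ∨
    ∃ Z : Finset ℝ, Z.card ≤ 4 * n ∧
      ∀ θ ∈ Set.Ico 0 (2 * Real.pi), |(R.eval (circleMap 0 1 θ)).re| = |c| → θ ∈ Z := by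
  classical
  set U : ℂ[X] := C (1 / 2 : ℂ) * (X ^ n * R + (R.map (starRingEnd ℂ)).reflect n) with hU
  set Q : ℂ[X] := U ^ 2 - C ((c : ℂ) ^ 2) * X ^ (2 * n) with hQ
  have hnorm : ∀ θ : ℝ, ‖circleMap 0 1 θ‖ = 1 := by intro θ; simp
  have hw0 : ∀ θ : ℝ, circleMap 0 1 θ ≠ 0 := by
    intro θ h
    have := hnorm θ
    rw [h, norm_zero] at this
    exact zero_ne_one this
  have evU : ∀ θ : ℝ, U.eval (circleMap 0 1 θ) =
      (circleMap 0 1 θ) ^ n * ((R.eval (circleMap 0 1 θ)).re : ℂ) := by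
    intro θ
    rw [hU, eval_mul, eval_C, eval_add, eval_mul, eval_pow, eval_X,
      eval_reflect_conj R n hR _ (hnorm θ), Complex.re_eq_add_conj]
    ring
  have evQ : ∀ θ : ℝ, Q.eval (circleMap 0 1 θ) =
      (circleMap 0 1 θ) ^ (2 * n) * (((R.eval (circleMap 0 1 θ)).re : ℂ) ^ 2 - (c : ℂ) ^ 2) := by
    intro θ
    rw [hQ, eval_sub, eval_pow, evU, eval_mul, eval_C, eval_pow, eval_X]
    ring
  have key : ∀ θ : ℝ, Q.eval (circleMap 0 1 θ) = 0 ↔ |(R.eval (circleMap 0 1 θ)).re| = |c| := by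
    intro θ
    rw [evQ, mul_eq_zero, ← sq_eq_sq_iff_abs_eq_abs]
    constructor
    · rintro (h | h)
      · exact absurd h (pow_ne_zero _ (hw0 θ))
      · have h' := sub_eq_zero.mp h
        exact_mod_cast h'
    · intro h
      right
      rw [sub_eq_zero]
      exact_mod_cast h
  by_cases hQ0 : Q = 0
  · left
    intro θ
    rw [← key θ, hQ0, eval_zero]
  · right
    have hdegR : ((R.map (starRingEnd ℂ)).reflect n).natDegree ≤ n := by
      refine natDegree_le_iff_coeff_eq_zero.mpr fun m hm => ?_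
      rw [coeff_reflect, revAt_eq_self_of_lt hm]
      refine coeff_eq_zero_of_natDegree_lt ?_
      exact lt_of_le_of_lt (le_trans natDegree_map_le hR) hm
    have hdegU : U.natDegree ≤ 2 * n := by
      rw [hU]
      refine le_trans (natDegree_C_mul_le _ _) ?_
      refine natDegree_add_le_of_degree_le ?_ (le_trans hdegR (by omega))
      refine le_trans natDegree_mul_le ?_
      have := natDegree_X_pow_le (R := ℂ) n
      omega
    have hdegQ : Q.natDegree ≤ 4 * n := by
      rw [hQ]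
      have e1 : (U ^ 2).natDegree ≤ 4 * n := le_trans natDegree_pow_le (by omega)
      have e2 : (C ((c : ℂ) ^ 2) * X ^ (2 * n)).natDegree ≤ 4 * n :=
        le_trans (natDegree_C_mul_le _ _) (le_trans (natDegree_X_pow_le _) (by omega))
      exact le_trans (natDegree_sub_le _ _) (max_le e1 e2)
    set S : Set ℝ := {θ | θ ∈ Set.Ico 0 (2 * Real.pi) ∧
      |(R.eval (circleMap 0 1 θ)).re| = |c|} with hS
    have hinj : Set.InjOn (circleMap 0 1) S := by
      have h1 : Set.InjOn (circleMap 0 1) (Set.Ico 0 (2 * Real.pi)) :=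
        injOn_circleMap_of_abs_sub_le' one_ne_zero (by simp)
      exact h1.mono fun θ h => h.1
    have hmaps : Set.MapsTo (circleMap 0 1) S (Q.roots.toFinset : Set ℂ) := by
      intro θ hθ
      rw [Finset.mem_coe, Multiset.mem_toFinset, mem_roots hQ0]
      exact (key θ).mpr hθ.2
    have hfin : S.Finite := Set.Finite.of_injOn hmaps hinj (Finset.finite_toSet _)
    refine ⟨hfin.toFinset, ?_, ?_⟩
    · calc hfin.toFinset.card ≤ Q.roots.toFinset.card := by
            refine Finset.card_le_card_of_injOn (circleMap 0 1) ?_ ?_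
            · intro θ hθ
              exact hmaps (by simpa using hθ)
            · intro θ hθ θ' hθ' h
              exact hinj (by simpa using hθ) (by simpa using hθ') h
        _ ≤ Multiset.card Q.roots := Multiset.toFinset_card_le _
        _ ≤ Q.natDegree := card_roots' Q
        _ ≤ 4 * n := hdegQ
    · intro θ hθ h
      rw [Set.Finite.mem_toFinset]
      exact ⟨hθ, h⟩

end Pool.Agent.H61.Sparse
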