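import Pool.Agent.H61.Sparse.Defs
import Pool.Agent.H61.Sparse.Gaps
import Pool.Agent.H61.Sparse.TrigZeros

/-!
JOB.  `step`: for `P` of degree `≤ n` the set of `θ ∈ [0, 2π]` with `|P(e^(iθ))| < x` and
`|w P'(w)| ≥ n y` (`w = e^(iθ)`) has measure at most `80 x / y`.  From `vol_le_of_gaps` and
`trig_zeros`.

Proof.  Let `u(θ) = Re P(e^(iθ))`, `v(θ) = Im P(e^(iθ))`; `d/dθ P(e^(iθ)) = i w P'(w)`, so
`|u'| ≥ n y / 2` or `|v'| ≥ n y / 2` on the set, and `|u| < x`, `|v| < x`.
Treat `u` (for `v` replace `P` by `- i P`).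
Put `c = n y / 4` and apply `trig_zeros` to `R = i X P'` (`natDegree ≤ n`), `u'(θ) = Re R(w)`.
First alternative: `|u'| = c < n y / 2` everywhere, the set is empty.  Second alternative:
let `S` be the part of the set in `[0, 2π)` (one point has measure zero); `S` does not meet `Z`
after removing from `Z` the points with `|u'| ≠ c`, or simply replace `Z` by `Z.filter`.
If `θ₁ < θ₂` belong to `S` and `Z` does not meet `[θ₁, θ₂]` then `|u'| > c` on `[θ₁, θ₂]`
(intermediate value theorem for the continuous function `|u'| - c`, positive at `θ₁`), so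
`c (θ₂ - θ₁) ≤ |u(θ₂) - u(θ₁)| < 2 x` by the mean value theorem (`exists_deriv_eq_slope`).
By `vol_le_of_gaps` the measure is at most `(4 n + 1) * 2 x / c ≤ 5 n * 8 x / (n y) = 40 x / y`.
-/

set_option autoImplicit false

namespace Pool.Agent.H61.Sparse

open Polynomial MeasureTheory

lemma hasDerivAt_re_eval (P : ℂ[X]) (θ : ℝ) :
    HasDerivAt (fun t : ℝ => (P.eval (circleMap 0 1 t)).re)
      ((C Complex.I * (X * derivative P)).eval (circleMap 0 1 θ)).re θ := by
  have h1 : HasDerivAt (fun t : ℝ => circleMap 0 1 t) (circleMap 0 1 θ * Complex.I) θ :=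
    hasDerivAt_circleMap 0 1 θ
  have h2 : HasDerivAt (fun z : ℂ => P.eval z) ((derivative P).eval (circleMap 0 1 θ))
      (circleMap 0 1 θ) := P.hasDerivAt _
  have h3 : HasDerivAt (fun t : ℝ => P.eval (circleMap 0 1 t))
      ((derivative P).eval (circleMap 0 1 θ) * (circleMap 0 1 θ * Complex.I)) θ :=
    HasDerivAt.comp θ h2 h1
  have h4 := (Complex.reCLM.hasFDerivAt (x := P.eval (circleMap 0 1 θ))).comp_hasDerivAt θ h3
  have h5 : ((C Complex.I * (X * derivative P)).eval (circleMap 0 1 θ)).re
      = Complex.reCLM ((derivative P).eval (circleMap 0 1 θ) * (circleMap 0 1 θ * Complex.I)) := by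
    rw [Complex.reCLM_apply]
    congr 1
    simp only [eval_mul, eval_C, eval_X]
    ring
  rw [h5]
  exact h4

lemma natDegree_R (P : ℂ[X]) (n : ℕ) (hP : P.natDegree ≤ n) :
    (C Complex.I * (X * derivative P)).natDegree ≤ n := by
  by_cases h0 : P.natDegree = 0
  · rw [natDegree_eq_zero] at h0
    obtain ⟨a, rfl⟩ := h0
    simp
  · have h1 : (C Complex.I * (X * derivative P)).natDegree ≤ (X * derivative P).natDegree :=
      natDegree_C_mul_le _ _
    have h2 : (X * derivative P).natDegree ≤ (X : ℂ[X]).natDegree + (derivative P).natDegree :=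
      natDegree_mul_le
    have h3 : (X : ℂ[X]).natDegree ≤ 1 := natDegree_X_le
    have h4 := natDegree_derivative_le P
    omega

/-- the half for the real part -/
lemma step_half (P : ℂ[X]) (n : ℕ) (hn : 0 < n) (hP : P.natDegree ≤ n) {x y : ℝ}
    (hx : 0 < x) (hy : 0 < y) :
    volume {θ : ℝ | θ ∈ Set.Ico 0 (2 * Real.pi) ∧ |(P.eval (circleMap 0 1 θ)).re| < x ∧
      n * y / 2 ≤ |((C Complex.I * (X * derivative P)).eval (circleMap 0 1 θ)).re|}
      ≤ ENNReal.ofReal (40 * x / y) := by
  classical
  set R := C Complex.I * (X * derivative P) with hR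
  set u : ℝ → ℝ := fun t => (P.eval (circleMap 0 1 t)).re with hu
  set u' : ℝ → ℝ := fun t => (R.eval (circleMap 0 1 t)).re with hu'
  have hder : ∀ t, HasDerivAt u (u' t) t := fun t => hasDerivAt_re_eval P t
  have hcont : Continuous u' := by
    have : Continuous (fun t : ℝ => circleMap 0 1 t) := continuous_circleMap 0 1
    exact Complex.continuous_re.comp (R.continuous.comp this)
  have hn' : (0 : ℝ) < n := by exact_mod_cast hn
  set c : ℝ := n * y / 4 with hc
  have hc0 : 0 < c := by positivity
  have hcabs : |c| = c := abs_of_pos hc0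
  rcases trig_zeros R n (natDegree_R P n hP) c with h | ⟨Z, hZ, hZ2⟩
  · have hemp : {θ : ℝ | θ ∈ Set.Ico 0 (2 * Real.pi) ∧ |(P.eval (circleMap 0 1 θ)).re| < x ∧
      n * y / 2 ≤ |(R.eval (circleMap 0 1 θ)).re|} = ∅ := by
      rw [Set.eq_empty_iff_forall_notMem]
      rintro θ ⟨-, -, h2⟩
      rw [h θ, hcabs, hc] at h2
      have : (0 : ℝ) < n * y := by positivity
      linarith
    rw [hemp]
    simp
  · set S := {θ : ℝ | θ ∈ Set.Ico 0 (2 * Real.pi) ∧ |(P.eval (circleMap 0 1 θ)).re| < x ∧
      n * y / 2 ≤ |(R.eval (circleMap 0 1 θ)).re|} with hS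
    have hcn : c < n * y / 2 := by
      have : (0 : ℝ) < n * y := by positivity
      rw [hc]
      linarith
    have hmain := vol_le_of_gaps S (Z.filter (fun z => |u' z| = c)) (2 * x / c) (by positivity)
      (by
        intro z hz hzS
        rw [Finset.mem_filter] at hz
        have h1 := hzS.2.2
        have h2 : |(R.eval (circleMap 0 1 z)).re| = c := hz.2
        rw [h2] at h1
        linarith)
      (by
        intro a ha b hb hab hz
        have hgt : ∀ t ∈ Set.Icc a b, c < |u' t| := by
          intro t ht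
          by_contra hcon
          push Not at hcon
          have hcts : ContinuousOn (fun s => |u' s|) (Set.Icc a t) := (hcont.abs).continuousOn
          have hval : c ∈ Set.Icc (|u' t|) (|u' a|) := by
            refine ⟨hcon, ?_⟩
            have := ha.2.2
            exact hcn.le.trans this
          obtain ⟨t0, ht0, ht0c⟩ := intermediate_value_Icc' ht.1 hcts hval
          have hmem : t0 ∈ Set.Ico 0 (2 * Real.pi) :=
            ⟨ha.1.1.trans ht0.1, (ht0.2.trans ht.2).trans_lt hb.1.2⟩
          have h1 : t0 ∈ Z := hZ2 t0 hmem (by rw [hcabs]; exact ht0c)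
          have h2 : t0 ∈ Z.filter (fun z => |u' z| = c) := Finset.mem_filter.mpr ⟨h1, ht0c⟩
          rcases hz t0 h2 with h3 | h3
          · exact absurd ht0.1 (not_le.mpr h3)
          · exact absurd (ht0.2.trans ht.2) (not_le.mpr h3)
        obtain ⟨ξ, hξ, hξ2⟩ := exists_hasDerivAt_eq_slope u u' hab
          (fun t _ => (hder t).continuousAt.continuousWithinAt) (fun t _ => hder t)
        have h1 := hgt ξ ⟨hξ.1.le, hξ.2.le⟩
        have hba : 0 < b - a := by linarith
        rw [hξ2, abs_div, abs_of_pos hba, lt_div_iff₀ hba] at h1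
        have h2 : |u b - u a| < 2 * x := by
          have h3 : |u b| < x := hb.2.1
          have h4 : |u a| < x := ha.2.1
          calc |u b - u a| ≤ |u b| + |u a| := abs_sub _ _
            _ < 2 * x := by linarith
        rw [le_div_iff₀ hc0]
        nlinarith)
    refine hmain.trans (ENNReal.ofReal_le_ofReal ?_)
    have hcard : ((Z.filter (fun z => |u' z| = c)).card : ℝ) ≤ 4 * n := by
      have : (Z.filter (fun z => |u' z| = c)).card ≤ 4 * n := (Finset.card_filter_le _ _).trans hZ
      exact_mod_cast this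
    have hn1 : (1 : ℝ) ≤ n := by exact_mod_cast hn
    calc (((Z.filter (fun z => |u' z| = c)).card : ℝ) + 1) * (2 * x / c)
        ≤ (5 * n) * (2 * x / c) := by
          apply mul_le_mul_of_nonneg_right _ (by positivity)
          linarith
      _ = 40 * x / y := by
          rw [hc]
          field_simp
          ring

theorem step (P : ℂ[X]) (n : ℕ) (hn : 0 < n) (hP : P.natDegree ≤ n) {x y : ℝ}
    (hx : 0 < x) (hy : 0 < y) :
    volume {θ : ℝ | θ ∈ Set.Icc 0 (2 * Real.pi) ∧ ‖P.eval (circleMap 0 1 θ)‖ < x ∧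
      n * y ≤ ‖(X * derivative P).eval (circleMap 0 1 θ)‖} ≤ ENNReal.ofReal (80 * x / y) := by
  set Q : ℂ[X] := C (-Complex.I) * P with hQ
  have hQd : Q.natDegree ≤ n := (natDegree_C_mul_le _ _).trans hP
  have h1 := step_half P n hn hP hx hy
  have h2 := step_half Q n hn hQd hx hy
  have hsub : {θ : ℝ | θ ∈ Set.Icc 0 (2 * Real.pi) ∧ ‖P.eval (circleMap 0 1 θ)‖ < x ∧
      n * y ≤ ‖(X * derivative P).eval (circleMap 0 1 θ)‖}
      ⊆ ({θ : ℝ | θ ∈ Set.Ico 0 (2 * Real.pi) ∧ |(P.eval (circleMap 0 1 θ)).re| < x ∧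
      n * y / 2 ≤ |((C Complex.I * (X * derivative P)).eval (circleMap 0 1 θ)).re|}
      ∪ {θ : ℝ | θ ∈ Set.Ico 0 (2 * Real.pi) ∧ |(Q.eval (circleMap 0 1 θ)).re| < x ∧
      n * y / 2 ≤ |((C Complex.I * (X * derivative Q)).eval (circleMap 0 1 θ)).re|})
      ∪ {2 * Real.pi} := by
    rintro θ ⟨hθ, hlt, hge⟩
    by_cases hlast : θ = 2 * Real.pi
    · right
      exact hlast
    · left
      have hIco : θ ∈ Set.Ico 0 (2 * Real.pi) := ⟨hθ.1, lt_of_le_of_ne hθ.2 hlast⟩
      set z := (X * derivative P).eval (circleMap 0 1 θ) with hz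
      have hnorm : ‖z‖ ≤ |z.re| + |z.im| := Complex.norm_le_abs_re_add_abs_im z
      by_cases him : n * y / 2 ≤ |z.im|
      · left
        refine ⟨hIco, (Complex.abs_re_le_norm _).trans_lt hlt, ?_⟩
        have : ((C Complex.I * (X * derivative P)).eval (circleMap 0 1 θ)).re = - z.im := by
          rw [eval_mul, eval_C, ← hz]
          simp
        rw [this, abs_neg]
        exact him
      · right
        push Not at him
        refine ⟨hIco, ?_, ?_⟩
        · refine (Complex.abs_re_le_norm _).trans_lt ?_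
          rw [hQ, eval_mul, eval_C, norm_mul]
          simpa using hlt
        · have : ((C Complex.I * (X * derivative Q)).eval (circleMap 0 1 θ)).re = z.re := by
            rw [hQ, derivative_C_mul, hz]
            simp only [eval_mul, eval_C, eval_X]
            congr 1
            linear_combination (-(circleMap 0 1 θ * (derivative P).eval (circleMap 0 1 θ))) *
              Complex.I_mul_I
          rw [this]
          linarith
  calc volume {θ : ℝ | θ ∈ Set.Icc 0 (2 * Real.pi) ∧ ‖P.eval (circleMap 0 1 θ)‖ < x ∧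
      n * y ≤ ‖(X * derivative P).eval (circleMap 0 1 θ)‖}
      ≤ volume (({θ : ℝ | θ ∈ Set.Ico 0 (2 * Real.pi) ∧ |(P.eval (circleMap 0 1 θ)).re| < x ∧
      n * y / 2 ≤ |((C Complex.I * (X * derivative P)).eval (circleMap 0 1 θ)).re|}
      ∪ {θ : ℝ | θ ∈ Set.Ico 0 (2 * Real.pi) ∧ |(Q.eval (circleMap 0 1 θ)).re| < x ∧
      n * y / 2 ≤ |((C Complex.I * (X * derivative Q)).eval (circleMap 0 1 θ)).re|})
      ∪ {2 * Real.pi}) := measure_mono hsub
    _ ≤ (ENNReal.ofReal (40 * x / y) + ENNReal.ofReal (40 * x / y)) + 0 := by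
        refine (measure_union_le _ _).trans (add_le_add ((measure_union_le _ _).trans
          (add_le_add h1 h2)) ?_)
        simp
    _ = ENNReal.ofReal (80 * x / y) := by
        rw [add_zero, ← ENNReal.ofReal_add (by positivity) (by positivity)]
        congr 1
        ring

end Pool.Agent.H61.Sparse
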